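import Mathlib

/-!
Classical projective geometry over `ℂ`: closed sets, varieties, dimension and degree through the
Hilbert function, regular maps and closed embeddings, numerical classes of curves, the space
`N_1` and the cone `Eff_1`, push-forward along an inclusion, sections of `O_Y(d)` and very general
members of the linear system they form.

The projective space of lines in `ℂ^σ` (`σ` a finite type) is `PS σ`. A homogeneous polynomial
vanishes at a point if and only if it vanishes at the chosen representative `p.rep` of the point.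
-/

namespace Pool.Agent.H286R4

open Module Filter Topology

/-- The projective space of lines in `ℂ^σ`. -/
abbrev PS (σ : Type) := Projectivization ℂ (σ → ℂ)

variable {σ τ : Type}

/-- Zariski closed subsets of a projective space: common zero sets of homogeneous polynomials. -/
def IsZClosed (X : Set (PS σ)) : Prop :=
  ∃ I : Set (MvPolynomial σ ℂ), (∀ f ∈ I, ∃ k, f.IsHomogeneous k) ∧
    X = {p | ∀ f ∈ I, MvPolynomial.eval p.rep f = 0}

/-- Projective varieties: irreducible closed subsets of a projective space. -/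
def IsVariety (X : Set (PS σ)) : Prop :=
  IsZClosed X ∧ X.Nonempty ∧
    ∀ Z₁ Z₂ : Set (PS σ), IsZClosed Z₁ → IsZClosed Z₂ → X ⊆ Z₁ ∪ Z₂ → X ⊆ Z₁ ∨ X ⊆ Z₂

theorem van_add (X : Set (PS σ)) {f g : MvPolynomial σ ℂ}
    (hf : ∀ p ∈ X, MvPolynomial.eval p.rep f = 0) (hg : ∀ p ∈ X, MvPolynomial.eval p.rep g = 0) :
    ∀ p ∈ X, MvPolynomial.eval p.rep (f + g) = 0 := by
  intro p hp
  rw [map_add, hf p hp, hg p hp, add_zero]

theorem van_zero (X : Set (PS σ)) :
    ∀ p ∈ X, MvPolynomial.eval p.rep (0 : MvPolynomial σ ℂ) = 0 := by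
  intro p _
  rw [map_zero]

theorem van_smul (X : Set (PS σ)) (c : ℂ) {f : MvPolynomial σ ℂ}
    (hf : ∀ p ∈ X, MvPolynomial.eval p.rep f = 0) :
    ∀ p ∈ X, MvPolynomial.eval p.rep (c • f) = 0 := by
  intro p hp
  rw [MvPolynomial.smul_eval, hf p hp, mul_zero]

/-- The polynomials that vanish at the chosen representatives of the points of `X`; a homogeneous
polynomial is in this subspace if and only if it vanishes on `X`. -/
def vanSub (X : Set (PS σ)) : Submodule ℂ (MvPolynomial σ ℂ) where
  carrier := {F | ∀ p ∈ X, MvPolynomial.eval p.rep F = 0}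
  add_mem' := fun ha hb => van_add X ha hb
  zero_mem' := van_zero X
  smul_mem' := fun c _ ha => van_smul X c ha

/-- The forms of degree `t` that vanish on `X`, as a subspace of the space of all forms of
degree `t`. -/
noncomputable def vanForms (X : Set (PS σ)) (t : ℕ) :
    Submodule ℂ (MvPolynomial.homogeneousSubmodule σ ℂ t) :=
  (vanSub X).comap (MvPolynomial.homogeneousSubmodule σ ℂ t).subtype

/-- The Hilbert function of `X`: the dimension of the degree `t` part of the homogeneous coordinate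
ring, that is, of the space of forms of degree `t` modulo those that vanish on `X`. -/
noncomputable def hilb (X : Set (PS σ)) (t : ℕ) : ℕ :=
  finrank ℂ (MvPolynomial.homogeneousSubmodule σ ℂ t ⧸ vanForms X t)

/-- `X` has dimension `k`: its Hilbert function grows like `t ^ k` (the dimension is the degree of
the Hilbert polynomial). -/
def HasDim (X : Set (PS σ)) (k : ℕ) : Prop :=
  (fun t : ℕ => (hilb X t : ℝ)) =Θ[atTop] fun t : ℕ => (t : ℝ) ^ k

/-- Curves: projective varieties of dimension one. -/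
def IsCurve (D : Set (PS σ)) : Prop := IsVariety D ∧ HasDim D 1

/-- The degree of a curve in its projective space: the leading coefficient of the Hilbert
polynomial, that is, the limit of `hilb D t / t`. -/
noncomputable def curveDeg (D : Set (PS σ)) : ℝ := liminf (fun t : ℕ => (hilb D t : ℝ) / t) atTop

/-- `w` is killed by the differentials at `v` of all homogeneous polynomials vanishing on `X`. -/
def TangentTo [Fintype σ] (X : Set (PS σ)) (v w : σ → ℂ) : Prop :=
  ∀ (k : ℕ) (f : MvPolynomial σ ℂ), f.IsHomogeneous k →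
    (∀ p ∈ X, MvPolynomial.eval p.rep f = 0) →
    ∑ i, MvPolynomial.eval v (MvPolynomial.pderiv i f) * w i = 0

theorem TangentTo.add [Fintype σ] {X : Set (PS σ)} {v a b : σ → ℂ} (ha : TangentTo X v a)
    (hb : TangentTo X v b) : TangentTo X v (a + b) := by
  intro k f hk hf
  simp only [Pi.add_apply, mul_add, Finset.sum_add_distrib]
  rw [ha k f hk hf, hb k f hk hf, add_zero]

theorem TangentTo.zero [Fintype σ] (X : Set (PS σ)) (v : σ → ℂ) : TangentTo X v 0 := by
  intro k f _ _
  simp

theorem TangentTo.smul [Fintype σ] {X : Set (PS σ)} {v a : σ → ℂ} (r : ℂ)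
    (ha : TangentTo X v a) : TangentTo X v (r • a) := by
  intro k f hk hf
  simp only [Pi.smul_apply, smul_eq_mul, mul_left_comm _ r]
  rw [← Finset.mul_sum, ha k f hk hf, mul_zero]

/-- The tangent space, at the vector `v`, of the affine cone over `X`: the common kernel of the
differentials at `v` of all homogeneous polynomials vanishing on `X`. -/
def coneTangent [Fintype σ] (X : Set (PS σ)) (v : σ → ℂ) : Submodule ℂ (σ → ℂ) where
  carrier := {w | TangentTo X v w}
  add_mem' := TangentTo.add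
  zero_mem' := TangentTo.zero X v
  smul_mem' := fun r _ ha => TangentTo.smul r ha

/-- A variety `X` of dimension `k` is smooth (Jacobian criterion): at each point the tangent space
of the affine cone has dimension `k + 1`. -/
def IsSmoothDim [Fintype σ] (X : Set (PS σ)) (k : ℕ) : Prop :=
  ∀ p ∈ X, finrank ℂ (coneTangent X p.rep) = k + 1

/-- Regular maps from a subset `Z` of a projective space to a projective space: near each point of
`Z` (on the set where some form `G` does not vanish) the map is given by forms of one degree. -/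
def IsRegularMap (Z : Set (PS σ)) (φ : Z → PS τ) : Prop :=
  ∀ z : Z, ∃ (e k : ℕ) (F : τ → MvPolynomial σ ℂ) (G : MvPolynomial σ ℂ),
    (∀ i, (F i).IsHomogeneous e) ∧ G.IsHomogeneous k ∧ MvPolynomial.eval z.1.rep G ≠ 0 ∧
    ∀ w : Z, MvPolynomial.eval w.1.rep G ≠ 0 →
      ∃ h : (fun i => MvPolynomial.eval w.1.rep (F i)) ≠ 0, φ w = Projectivization.mk ℂ _ h

/-- Closed embeddings of a closed set `Z` into projective spaces: regular maps that are injective,
have closed image, and whose inverse, defined on the image, is regular. -/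
structure ClosedEmb (Z : Set (PS σ)) where
  /-- the coordinates of the target projective space -/
  τ : Type
  /-- the target projective space has finite dimension -/
  fin : Fintype τ
  /-- the map -/
  toFun : Z → PS τ
  inj : Function.Injective toFun
  regular : IsRegularMap Z toFun
  closed : IsZClosed (Set.range toFun)
  inv_regular : IsRegularMap (Set.range toFun)
    (fun w => ((Equiv.ofInjective toFun inj).symm w : PS σ))

/-- The image of a subset `D` of the ambient projective space under an embedding of `Z`. -/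
def ClosedEmb.image {Z : Set (PS σ)} (φ : ClosedEmb Z) (D : Set (PS σ)) : Set (PS φ.τ) :=
  {q | ∃ z : Z, z.1 ∈ D ∧ φ.toFun z = q}

/-- The numerical class of a curve `D` in `Z`, recorded by the intersection numbers of `D` with all
very ample line bundles of `Z`: to a closed embedding of `Z` into a projective space we assign the
degree of the image of `D`. Since every line bundle on a projective variety is a difference of two
very ample ones, two real combinations of curves are numerically equivalent if and only if they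
have the same class. -/
noncomputable def cls (Z D : Set (PS σ)) : ClosedEmb Z → ℝ := fun φ => curveDeg (φ.image D)

/-- The classes of curves in `Z`. -/
def curveClasses (Z : Set (PS σ)) : Set (ClosedEmb Z → ℝ) :=
  {c | ∃ D, IsCurve D ∧ D ⊆ Z ∧ c = cls Z D}

/-- The real vector space `N_1(Z)` spanned by the classes of curves in `Z`. -/
noncomputable def N1 (Z : Set (PS σ)) : Submodule ℝ (ClosedEmb Z → ℝ) :=
  Submodule.span ℝ (curveClasses Z)

/-- The convex cone spanned by the classes of curves in `Z`. -/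
noncomputable def effCone (Z : Set (PS σ)) : Set (ClosedEmb Z → ℝ) :=
  (Submodule.span NNReal (curveClasses Z) : Set (ClosedEmb Z → ℝ))

/-- The pseudoeffective cone `Eff_1(Z)`: the closure in `N_1(Z)` of the convex cone spanned by the
classes of curves. -/
noncomputable def Eff1 (Z : Set (PS σ)) : Set (ClosedEmb Z → ℝ) :=
  (N1 Z : Set (ClosedEmb Z → ℝ)) ∩ closure (effCone Z)

theorem hom_eval {G : MvPolynomial σ ℂ} {k : ℕ} (hG : G.IsHomogeneous k)
    (w : σ → ℂ) (t : ℂ) :
    MvPolynomial.eval (t • w) G = t ^ k * MvPolynomial.eval w G := by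
  rw [MvPolynomial.eval_eq, MvPolynomial.eval_eq, Finset.mul_sum]
  refine Finset.sum_congr rfl fun d hd => ?_
  have h1 : d.degree = k := by
    by_contra hne
    exact MvPolynomial.mem_support_iff.mp hd (hG.coeff_eq_zero hne)
  have h2 : ∏ i ∈ d.support, ((t • w) i) ^ d i = t ^ k * ∏ i ∈ d.support, w i ^ d i := by
    simp only [Pi.smul_apply, smul_eq_mul, mul_pow]
    rw [Finset.prod_mul_distrib, Finset.prod_pow_eq_pow_sum, ← h1]
    rfl
  rw [h2]
  ring

theorem rep_mk (v : σ → ℂ) (hv : v ≠ 0) :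
    ∃ c : ℂ, c ≠ 0 ∧ (Projectivization.mk ℂ v hv).rep = c • v := by
  obtain ⟨a, ha⟩ := Projectivization.exists_smul_eq_mk_rep ℂ v hv
  exact ⟨a, a.ne_zero, ha.symm⟩

theorem eval_rep_mk {G : MvPolynomial σ ℂ} {k : ℕ} (hG : G.IsHomogeneous k)
    (v : σ → ℂ) (hv : v ≠ 0) :
    MvPolynomial.eval (Projectivization.mk ℂ v hv).rep G = 0 ↔ MvPolynomial.eval v G = 0 := by
  obtain ⟨c, hc, h⟩ := rep_mk v hv
  rw [h, hom_eval hG]
  constructor
  · intro h1
    exact (mul_eq_zero.mp h1).resolve_left (pow_ne_zero _ hc)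
  · intro h1
    rw [h1, mul_zero]

/-- a set is closed if each point outside it is separated from it by a homogeneous polynomial -/
theorem isZClosed_of {X : Set (PS σ)} (h : ∀ p, p ∉ X → ∃ (k : ℕ) (f : MvPolynomial σ ℂ),
    f.IsHomogeneous k ∧ (∀ q ∈ X, MvPolynomial.eval q.rep f = 0) ∧
      MvPolynomial.eval p.rep f ≠ 0) : IsZClosed X := by
  refine ⟨{f | (∃ k, f.IsHomogeneous k) ∧ ∀ q ∈ X, MvPolynomial.eval q.rep f = 0},
    fun f hf => hf.1, ?_⟩
  ext p
  constructor
  · intro hp f hf
    exact hf.2 p hp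
  · intro hp
    by_contra hpX
    obtain ⟨k, f, hk, hf, hne⟩ := h p hpX
    exact hne (hp f ⟨⟨k, hk⟩, hf⟩)

theorem IsZClosed.sep {X : Set (PS σ)} (h : IsZClosed X) {p : PS σ} (hp : p ∉ X) :
    ∃ (k : ℕ) (f : MvPolynomial σ ℂ), f.IsHomogeneous k ∧
      (∀ q ∈ X, MvPolynomial.eval q.rep f = 0) ∧ MvPolynomial.eval p.rep f ≠ 0 := by
  obtain ⟨I, hI, hX⟩ := h
  rw [hX] at hp
  simp only [Set.mem_ofPred_eq, not_forall] at hp
  obtain ⟨f, hf, hne⟩ := hp
  obtain ⟨k, hk⟩ := hI f hf
  refine ⟨k, f, hk, fun q hq => ?_, hne⟩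
  rw [hX] at hq
  exact hq f hf

/-- the image of a closed subset under a closed embedding is closed -/
theorem ClosedEmb.image_closed {Y : Set (PS σ)} (φ : ClosedEmb Y) {X : Set (PS σ)}
    (hX : IsZClosed X) : IsZClosed (φ.image X) := by
  refine isZClosed_of fun p hp => ?_
  by_cases hpr : p ∈ Set.range φ.toFun
  · obtain ⟨e, k, F, G, hF, hG, hGp, hall⟩ := φ.inv_regular ⟨p, hpr⟩
    have h1 : ((Equiv.ofInjective φ.toFun φ.inj).symm ⟨p, hpr⟩ : PS σ) ∉ X := by
      intro h2
      refine hp ⟨(Equiv.ofInjective φ.toFun φ.inj).symm ⟨p, hpr⟩, h2, ?_⟩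
      exact Equiv.apply_ofInjective_symm φ.inj ⟨p, hpr⟩
    obtain ⟨l, f, hl, hf, hne⟩ := hX.sep h1
    have hcomp : (MvPolynomial.aeval F f).IsHomogeneous (e * l) := hl.aeval F hF
    have hev : ∀ v : φ.τ → ℂ, MvPolynomial.eval v (MvPolynomial.aeval F f) =
        MvPolynomial.eval (fun i => MvPolynomial.eval v (F i)) f := by
      intro v
      rw [← MvPolynomial.coe_aeval_eq_eval, ← MvPolynomial.coe_aeval_eq_eval]
      change ((MvPolynomial.aeval v).comp (MvPolynomial.aeval F)) f = _
      rw [MvPolynomial.comp_aeval]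
      rfl
    refine ⟨k + e * l, G * MvPolynomial.aeval F f, hG.mul hcomp, ?_, ?_⟩
    · rintro q ⟨z, hz, rfl⟩
      rw [map_mul]
      by_cases hGq : MvPolynomial.eval (φ.toFun z).rep G = 0
      · rw [hGq, zero_mul]
      · obtain ⟨h, heq⟩ := hall ⟨φ.toFun z, z, rfl⟩ hGq
        have h3 : ((Equiv.ofInjective φ.toFun φ.inj).symm ⟨φ.toFun z, z, rfl⟩ : PS σ) = z.1 := by
          rw [Equiv.ofInjective_symm_apply φ.inj z]
        have h4 := hf z.1 hz
        beta_reduce at heq
        rw [← h3, heq, eval_rep_mk hl] at h4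
        rw [hev, h4, mul_zero]
    · rw [map_mul, hev]
      obtain ⟨h, heq⟩ := hall ⟨p, hpr⟩ hGp
      beta_reduce at heq
      rw [heq] at hne
      refine mul_ne_zero hGp fun h5 => hne ?_
      rw [eval_rep_mk hl]
      exact h5
  · obtain ⟨k, f, hk, hf, hne⟩ := φ.closed.sep hpr
    refine ⟨k, f, hk, ?_, hne⟩
    rintro q ⟨z, _, rfl⟩
    exact hf _ ⟨z, rfl⟩

/-- The restriction of the map underlying an embedding of `Y` to a subset `X`. -/
def ClosedEmb.resFun {X Y : Set (PS σ)} (φ : ClosedEmb Y) (hXY : X ⊆ Y) : X → PS φ.τ :=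
  fun x => φ.toFun ⟨x.1, hXY x.2⟩

theorem ClosedEmb.resFun_inj {X Y : Set (PS σ)} (φ : ClosedEmb Y) (hXY : X ⊆ Y) :
    Function.Injective (φ.resFun hXY) := by
  intro a b hab
  have := φ.inj hab
  exact Subtype.ext (Subtype.mk.inj this)

theorem ClosedEmb.resFun_regular {X Y : Set (PS σ)} (φ : ClosedEmb Y) (hXY : X ⊆ Y) :
    IsRegularMap X (φ.resFun hXY) := by
  intro z
  obtain ⟨e, k, F, G, hF, hG, hGz, hall⟩ := φ.regular ⟨z.1, hXY z.2⟩
  exact ⟨e, k, F, G, hF, hG, hGz, fun w hw => hall ⟨w.1, hXY w.2⟩ hw⟩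

theorem ClosedEmb.resFun_closed {X Y : Set (PS σ)} (φ : ClosedEmb Y) (hX : IsZClosed X)
    (hXY : X ⊆ Y) : IsZClosed (Set.range (φ.resFun hXY)) := by
  have h := φ.image_closed hX
  have h2 : φ.image X = Set.range (φ.resFun hXY) := by
    ext q
    constructor
    · rintro ⟨z, hz, rfl⟩
      exact ⟨⟨z.1, hz⟩, rfl⟩
    · rintro ⟨x, rfl⟩
      exact ⟨⟨x.1, hXY x.2⟩, x.2, rfl⟩
  rw [← h2]
  exact h

theorem ClosedEmb.resFun_inv {X Y : Set (PS σ)} (φ : ClosedEmb Y) (hXY : X ⊆ Y) :
    IsRegularMap (Set.range (φ.resFun hXY))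
      (fun w => ((Equiv.ofInjective _ (φ.resFun_inj hXY)).symm w : PS σ)) := by
  rintro ⟨w, x, rfl⟩
  obtain ⟨e, k, F, G, hF, hG, hGz, hall⟩ := φ.inv_regular ⟨_, ⟨x.1, hXY x.2⟩, rfl⟩
  refine ⟨e, k, F, G, hF, hG, hGz, ?_⟩
  rintro ⟨w', x', rfl⟩ hw'
  obtain ⟨h, heq⟩ := hall ⟨_, ⟨x'.1, hXY x'.2⟩, rfl⟩ hw'
  refine ⟨h, ?_⟩
  refine Eq.trans ?_ heq
  beta_reduce
  have h1 : ((Equiv.ofInjective φ.toFun φ.inj).symm
      ⟨φ.toFun ⟨x'.1, hXY x'.2⟩, ⟨x'.1, hXY x'.2⟩, rfl⟩ : PS σ) = x'.1 := by
    rw [Equiv.ofInjective_symm_apply φ.inj ⟨x'.1, hXY x'.2⟩]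
  rw [h1]
  exact congrArg Subtype.val (Equiv.ofInjective_symm_apply (φ.resFun_inj hXY) x')

/-- The restriction of a closed embedding of `Y` to a closed subset `X`. -/
noncomputable def ClosedEmb.restrict {X Y : Set (PS σ)} (φ : ClosedEmb Y) (hX : IsZClosed X)
    (hXY : X ⊆ Y) : ClosedEmb X where
  τ := φ.τ
  fin := φ.fin
  toFun := φ.resFun hXY
  inj := φ.resFun_inj hXY
  regular := φ.resFun_regular hXY
  closed := φ.resFun_closed hX hXY
  inv_regular := φ.resFun_inv hXY

/-- The push-forward `i_*` along the inclusion `i` of a closed subset `X` of `Y`, which sends the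
class in `X` of a curve `D ⊆ X` to the class of `D` in `Y` (`push_cls`). -/
noncomputable def push {X Y : Set (PS σ)} (hX : IsZClosed X) (hXY : X ⊆ Y)
    (c : ClosedEmb X → ℝ) : ClosedEmb Y → ℝ := fun φ => c (φ.restrict hX hXY)

theorem push_cls {X Y : Set (PS σ)} (hX : IsZClosed X) (hXY : X ⊆ Y) {D : Set (PS σ)}
    (hD : D ⊆ X) : push hX hXY (cls X D) = cls Y D := by
  ext φ
  change curveDeg ((φ.restrict hX hXY).image D) = curveDeg (φ.image D)
  congr 1
  ext q
  constructor
  · rintro ⟨z, hz, rfl⟩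
    exact ⟨⟨z.1, hXY z.2⟩, hz, rfl⟩
  · rintro ⟨z, hz, rfl⟩
    exact ⟨⟨z.1, hD hz⟩, hz, rfl⟩

/-- `i_*` induces an isomorphism of effective cones in dimension one: it is a bijection
`N_1(X) → N_1(Y)` (it is linear) and maps `Eff_1(X)` onto `Eff_1(Y)`. -/
def InducesIso {X Y : Set (PS σ)} (hX : IsZClosed X) (hXY : X ⊆ Y) : Prop :=
  Set.BijOn (push hX hXY) (N1 X) (N1 Y) ∧ push hX hXY '' Eff1 X = Eff1 Y

/-- The punctured affine cone over `Y`. -/
def Cone (Y : Set (PS σ)) : Set (σ → ℂ) := {v | ∃ hv : v ≠ 0, Projectivization.mk ℂ v hv ∈ Y}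

/-- `s` is a global section of `O_Y(d)`: a function on the punctured affine cone over `Y` that near
each point is a quotient `F / G` of forms with `deg F = deg G + d`. -/
def IsSection (Y : Set (PS σ)) (d : ℕ) (s : Cone Y → ℂ) : Prop :=
  ∀ v : Cone Y, ∃ (k : ℕ) (F G : MvPolynomial σ ℂ), F.IsHomogeneous (k + d) ∧
    G.IsHomogeneous k ∧ MvPolynomial.eval v.1 G ≠ 0 ∧
    ∀ w : Cone Y, MvPolynomial.eval w.1 G ≠ 0 →
      s w * MvPolynomial.eval w.1 G = MvPolynomial.eval w.1 F

theorem rep_mem_Cone {Y : Set (PS σ)} {p : PS σ} (hp : p ∈ Y) : p.rep ∈ Cone Y :=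
  ⟨p.rep_nonzero, by rw [Projectivization.mk_rep]; exact hp⟩

/-- The zero locus in `Y` of a section of `O_Y(d)`. -/
def zeroLocus {Y : Set (PS σ)} (s : Cone Y → ℂ) : Set (PS σ) :=
  {p | ∃ hp : p ∈ Y, s ⟨p.rep, rep_mem_Cone hp⟩ = 0}

theorem zeroLocus_subset {Y : Set (PS σ)} (s : Cone Y → ℂ) : zeroLocus s ⊆ Y :=
  fun _ hp => hp.1

theorem zeroLocus_closed {Y : Set (PS σ)} (hY : IsZClosed Y) {d : ℕ} {s : Cone Y → ℂ}
    (hs : IsSection Y d s) : IsZClosed (zeroLocus s) := by
  refine isZClosed_of fun p hp => ?_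
  by_cases hpY : p ∈ Y
  · obtain ⟨k, F, G, hF, hG, hv, h⟩ := hs ⟨p.rep, rep_mem_Cone hpY⟩
    refine ⟨k + (k + d), G * F, hG.mul hF, ?_, ?_⟩
    · rintro q ⟨hq, hs⟩
      rw [map_mul]
      by_cases hGq : MvPolynomial.eval q.rep G = 0
      · rw [hGq, zero_mul]
      · have := h ⟨q.rep, rep_mem_Cone hq⟩ hGq
        rw [hs, zero_mul] at this
        rw [← this, mul_zero]
    · rw [map_mul]
      have h1 := h ⟨p.rep, rep_mem_Cone hpY⟩ hv
      rw [← h1]
      refine mul_ne_zero hv (mul_ne_zero (fun h2 => hp ⟨hpY, h2⟩) hv)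
  · obtain ⟨k, f, hk, hf, hne⟩ := hY.sep hpY
    exact ⟨k, f, hk, fun q hq => hf q hq.1, hne⟩

/-- Zariski closed subsets of the vector space `H^0(Y, O_Y(d))`: the sets of sections at which some
polynomial functions vanish. Since a section is a function on the punctured cone, the linear
functionals on this finite-dimensional space are the combinations of evaluations at points of the
cone, and the polynomial functions are the polynomials in these evaluations. -/
def IsAlgSet (Y : Set (PS σ)) (d : ℕ) (B : Set (Cone Y → ℂ)) : Prop :=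
  ∃ S : Set (MvPolynomial (Cone Y) ℂ),
    B = {s | IsSection Y d s ∧ ∀ Q ∈ S, MvPolynomial.eval s Q = 0}

/-- A property of closed subsets of `Y` holds for a very general member of the complete linear
system `|dA|`, where `A` is the hyperplane class of `Y`: it holds for the zero locus of each nonzero
section of `O_Y(d)` outside a countable union of proper closed cones (these correspond to proper
closed subsets of the projective space `|dA|` of lines in the space of sections). -/
def VeryGeneral {Y : Set (PS σ)} (hY : IsZClosed Y) (d : ℕ)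
    (P : ∀ X : Set (PS σ), IsZClosed X → X ⊆ Y → Prop) : Prop :=
  ∃ B : ℕ → Set (Cone Y → ℂ),
    (∀ k, IsAlgSet Y d (B k) ∧ (∃ s, IsSection Y d s ∧ s ∉ B k) ∧
      ∀ (c : ℂ), ∀ s ∈ B k, c • s ∈ B k) ∧
    ∀ (s : Cone Y → ℂ) (hs : IsSection Y d s), s ≠ 0 → (∀ k, s ∉ B k) →
      P (zeroLocus s) (zeroLocus_closed hY hs) (zeroLocus_subset s)

end Pool.Agent.H286R4
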