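import Mathlib
import Pool.Agent.H286R4.LefDefs

/-!
Comparison of Hilbert functions and the graph-Segre embedding attached to a regular map.
-/

namespace Pool.Agent.H286R4

open Module Filter Topology

variable {σ τ E : Type}

theorem finite_forms (τ : Type) [Finite τ] (t : ℕ) :
    Module.Finite ℂ (MvPolynomial.homogeneousSubmodule τ ℂ t) :=
  Module.Finite.iff_fg.mpr (MvPolynomial.homogeneousSubmodule_fg _ _ t)

theorem quot_le {V W : Type*} [AddCommGroup V] [Module ℂ V] [AddCommGroup W] [Module ℂ W]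
    [Module.Finite ℂ W] (K₁ : Submodule ℂ V) (K₂ : Submodule ℂ W) (f : V →ₗ[ℂ] W)
    (h : ∀ v, f v ∈ K₂ → v ∈ K₁) : finrank ℂ (V ⧸ K₁) ≤ finrank ℂ (W ⧸ K₂) := by
  have h0 : K₂.comap f ≤ K₁ := fun v hv => h v hv
  have hinj : Function.Injective ((K₂.comap f).mapQ K₂ f le_rfl) := by
    rw [← LinearMap.ker_eq_bot, Submodule.ker_mapQ]
    exact Submodule.mkQ_map_self _
  have h1 : finrank ℂ (V ⧸ K₂.comap f) ≤ finrank ℂ (W ⧸ K₂) :=
    LinearMap.finrank_le_finrank_of_injective hinj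
  have : Module.Finite ℂ (V ⧸ K₂.comap f) := Module.Finite.of_injective _ hinj
  have h2 : finrank ℂ (V ⧸ K₁) ≤ finrank ℂ (V ⧸ K₂.comap f) :=
    LinearMap.finrank_le_finrank_of_surjective (Submodule.factor_surjective h0)
  exact h2.trans h1

theorem quot_le_of_ker {V W : Type*} [AddCommGroup V] [Module ℂ V] [AddCommGroup W] [Module ℂ W]
    [Module.Finite ℂ W] (K₁ : Submodule ℂ V) (f : V →ₗ[ℂ] W)
    (h : ∀ v, f v = 0 → v ∈ K₁) : finrank ℂ (V ⧸ K₁) ≤ finrank ℂ W := by
  have := quot_le K₁ (⊥ : Submodule ℂ W) f (fun v hv => h v ((Submodule.mem_bot ℂ).mp hv))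
  rwa [(Submodule.quotEquivOfEqBot (⊥ : Submodule ℂ W) rfl).finrank_eq] at this

theorem le_quot {V W : Type*} [AddCommGroup V] [Module ℂ V] [AddCommGroup W] [Module ℂ W]
    [Module.Finite ℂ W] (K₂ : Submodule ℂ W) (f : V →ₗ[ℂ] W)
    (h : ∀ v, f v ∈ K₂ → v = 0) : finrank ℂ V ≤ finrank ℂ (W ⧸ K₂) := by
  have := quot_le (⊥ : Submodule ℂ V) K₂ f (fun v hv => (Submodule.mem_bot ℂ).mpr (h v hv))
  rwa [(Submodule.quotEquivOfEqBot (⊥ : Submodule ℂ V) rfl).finrank_eq] at this

/-- evaluation of a composite -/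
theorem eval_aeval' (F : σ → MvPolynomial τ ℂ) (f : MvPolynomial σ ℂ) (v : τ → ℂ) :
    MvPolynomial.eval v (MvPolynomial.aeval F f) =
      MvPolynomial.eval (fun i => MvPolynomial.eval v (F i)) f := by
  rw [← MvPolynomial.coe_aeval_eq_eval, ← MvPolynomial.coe_aeval_eq_eval]
  change ((MvPolynomial.aeval v).comp (MvPolynomial.aeval F)) f = _
  rw [MvPolynomial.comp_aeval]
  rfl

/-- substitution of forms of degree `e` -/
noncomputable def substMap (F : σ → MvPolynomial τ ℂ) (e : ℕ) (hF : ∀ i, (F i).IsHomogeneous e)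
    (t : ℕ) : MvPolynomial.homogeneousSubmodule σ ℂ t →ₗ[ℂ]
      MvPolynomial.homogeneousSubmodule τ ℂ (e * t) :=
  (MvPolynomial.aeval F).toLinearMap.restrict fun f hf =>
    ((MvPolynomial.mem_homogeneousSubmodule _ _).mp hf).aeval F hF

theorem substMap_eval (F : σ → MvPolynomial τ ℂ) (e : ℕ) (hF : ∀ i, (F i).IsHomogeneous e)
    (t : ℕ) (f : MvPolynomial.homogeneousSubmodule σ ℂ t) (v : τ → ℂ) :
    MvPolynomial.eval v (substMap F e hF t f).1 =
      MvPolynomial.eval (fun i => MvPolynomial.eval v (F i)) f.1 :=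
  eval_aeval' F f.1 v

/-- the decomposable tensor of two vectors -/
def segre (u : E → ℂ) (x : σ → ℂ) : E × σ → ℂ := fun q => u q.1 * x q.2

theorem segre_ne_zero {u : E → ℂ} {x : σ → ℂ} (hu : u ≠ 0) (hx : x ≠ 0) : segre u x ≠ 0 := by
  obtain ⟨i, hi⟩ := Function.ne_iff.mp hu
  obtain ⟨a, ha⟩ := Function.ne_iff.mp hx
  intro h
  exact mul_ne_zero hi ha (congrFun h (i, a))

theorem mk_eq_of_smul {u v : σ → ℂ} (hu : u ≠ 0) (hv : v ≠ 0) (c : ℂ) (h : u = c • v) :
    Projectivization.mk ℂ u hu = Projectivization.mk ℂ v hv :=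
  (Projectivization.mk_eq_mk_iff' ℂ u v hu hv).mpr ⟨c, h.symm⟩

theorem rep_eq_of {p : PS σ} {v : σ → ℂ} (hv : v ≠ 0) (h : p = Projectivization.mk ℂ v hv) :
    ∃ c : ℂ, c ≠ 0 ∧ p.rep = c • v := by
  rw [h]
  exact rep_mk v hv

/-- the graph-Segre map attached to a map `ρ` -/
noncomputable def graphFun {Z : Set (PS σ)} (ρ : Z → PS E) (z : Z) : PS (E × σ) :=
  Projectivization.mk ℂ (segre (ρ z).rep z.1.rep)
    (segre_ne_zero (ρ z).rep_nonzero z.1.rep_nonzero)

theorem graphFun_rep {Z : Set (PS σ)} (ρ : Z → PS E) (z : Z) :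
    ∃ c : ℂ, c ≠ 0 ∧ (graphFun ρ z).rep = c • segre (ρ z).rep z.1.rep := rep_mk _ _

theorem graphFun_inj {Z : Set (PS σ)} (ρ : Z → PS E) : Function.Injective (graphFun ρ) := by
  intro z w h
  obtain ⟨c, hc⟩ := (Projectivization.mk_eq_mk_iff' ℂ _ _ _ _).mp h
  obtain ⟨i, hi⟩ := Function.ne_iff.mp (ρ z).rep_nonzero
  apply Subtype.ext
  rw [← Projectivization.mk_rep z.1, ← Projectivization.mk_rep w.1]
  refine mk_eq_of_smul _ _ (((ρ z).rep i)⁻¹ * (c * (ρ w).rep i)) ?_
  funext a
  have h1 := congrFun hc (i, a)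
  simp only [segre, Pi.smul_apply, smul_eq_mul] at h1 ⊢
  rw [mul_assoc, mul_assoc, h1, ← mul_assoc, inv_mul_cancel₀ hi, one_mul]

theorem graphFun_regular {Z : Set (PS σ)} (ρ : Z → PS E) (hρ : IsRegularMap Z ρ) :
    IsRegularMap Z (graphFun ρ) := by
  intro z
  obtain ⟨e, k, F, G, hF, hG, hGz, hall⟩ := hρ z
  refine ⟨e + 1, k, fun q => F q.1 * MvPolynomial.X q.2, G,
    fun q => (hF q.1).mul (MvPolynomial.isHomogeneous_X _ _), hG, hGz, fun w hw => ?_⟩
  obtain ⟨h, heq⟩ := hall w hw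
  have h1 : (fun q : E × σ => MvPolynomial.eval w.1.rep (F q.1 * MvPolynomial.X q.2)) =
      segre (fun i => MvPolynomial.eval w.1.rep (F i)) w.1.rep := by
    funext q
    rw [map_mul, MvPolynomial.eval_X]
    rfl
  have h2 : (fun q : E × σ => MvPolynomial.eval w.1.rep (F q.1 * MvPolynomial.X q.2)) ≠ 0 := by
    rw [h1]
    exact segre_ne_zero h w.1.rep_nonzero
  refine ⟨h2, ?_⟩
  obtain ⟨c, hc, hrep⟩ := rep_eq_of h heq
  refine mk_eq_of_smul _ _ c ?_
  rw [h1, hrep]
  funext q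
  simp only [segre, Pi.smul_apply, smul_eq_mul]
  ring

theorem rank_one {q : E × σ → ℂ} (hq : q ≠ 0)
    (h : ∀ i a i' a', q (i, a) * q (i', a') = q (i, a') * q (i', a)) :
    ∃ (u : E → ℂ) (x : σ → ℂ), u ≠ 0 ∧ x ≠ 0 ∧ q = segre u x := by
  obtain ⟨⟨i₀, a₀⟩, h0⟩ := Function.ne_iff.mp hq
  simp only [Pi.zero_apply] at h0
  refine ⟨fun i => q (i, a₀) / q (i₀, a₀), fun a => q (i₀, a), ?_, ?_, ?_⟩
  · intro hu
    have := congrFun hu i₀
    simp only [Pi.zero_apply] at this
    rw [div_self h0] at this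
    exact one_ne_zero this
  · intro hx
    exact h0 (congrFun hx a₀)
  · funext ⟨i, a⟩
    simp only [segre]
    rw [div_mul_eq_mul_div, eq_div_iff h0, h i a i₀ a₀]

theorem graphFun_closed {Z : Set (PS σ)} (hZ : IsZClosed Z) (ρ : Z → PS E)
    (hρ : IsRegularMap Z ρ) : IsZClosed (Set.range (graphFun ρ)) := by
  refine isZClosed_of fun p hp => ?_
  by_cases hr : ∀ i a i' a', p.rep (i, a) * p.rep (i', a') = p.rep (i, a') * p.rep (i', a)
  · obtain ⟨u, x, hu, hx, hux⟩ := rank_one p.rep_nonzero hr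
    obtain ⟨i₀, hi₀⟩ := Function.ne_iff.mp hu
    obtain ⟨a₀, ha₀⟩ := Function.ne_iff.mp hx
    simp only [Pi.zero_apply] at hi₀ ha₀
    have hrow : (fun a => p.rep (i₀, a)) = u i₀ • x := by
      rw [hux]; rfl
    by_cases hxZ : Projectivization.mk ℂ x hx ∈ Z
    · obtain ⟨e, k, F, G, hF, hG, hGz, hall⟩ := hρ ⟨_, hxZ⟩
      obtain ⟨hFz, hρz⟩ := hall ⟨_, hxZ⟩ hGz
      obtain ⟨c, hc, hrep⟩ := rep_mk x hx
      have hGx : MvPolynomial.eval x G ≠ 0 := fun h => hGz ((eval_rep_mk hG x hx).mpr h)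
      have hFx : (fun i => MvPolynomial.eval (Projectivization.mk ℂ x hx).rep (F i)) =
          c ^ e • fun i => MvPolynomial.eval x (F i) := by
        funext i
        rw [hrep, hom_eval (hF i)]
        rfl
      have hmin : ∃ i i', u i * MvPolynomial.eval x (F i') ≠ u i' * MvPolynomial.eval x (F i) := by
        by_contra hcon
        push Not at hcon
        apply hp
        refine ⟨⟨_, hxZ⟩, ?_⟩
        have h1 : (fun i => MvPolynomial.eval x (F i)) =
            (MvPolynomial.eval x (F i₀) / u i₀) • u := by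
          funext i
          rw [Pi.smul_apply, smul_eq_mul, div_mul_eq_mul_div, eq_div_iff hi₀]
          have := hcon i i₀
          linear_combination -this
        obtain ⟨c', hc', hrep'⟩ := rep_eq_of hFz hρz
        rw [← Projectivization.mk_rep p]
        refine mk_eq_of_smul _ _ (c' * c ^ e * (MvPolynomial.eval x (F i₀) / u i₀) * c) ?_
        rw [hrep', hux]
        change segre (c' • _) (Projectivization.mk ℂ x hx).rep = _
        rw [hFx, h1, hrep]
        funext q
        simp only [segre, Pi.smul_apply, smul_eq_mul]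
        ring
      obtain ⟨i, i', hii⟩ := hmin
      have hren : ∀ (v : E × σ → ℂ) (f : MvPolynomial σ ℂ),
          MvPolynomial.eval v (MvPolynomial.rename (fun a => (i₀, a)) f) =
            MvPolynomial.eval (fun a => v (i₀, a)) f := by
        intro v f
        rw [MvPolynomial.eval_rename]
        rfl
      refine ⟨k + (1 + e), MvPolynomial.rename (fun a => (i₀, a)) G *
        (MvPolynomial.X (i, a₀) * MvPolynomial.rename (fun a => (i₀, a)) (F i') -
          MvPolynomial.X (i', a₀) * MvPolynomial.rename (fun a => (i₀, a)) (F i)), ?_, ?_, ?_⟩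
      · refine (hG.rename_isHomogeneous).mul (MvPolynomial.IsHomogeneous.sub ?_ ?_)
        · exact (MvPolynomial.isHomogeneous_X _ _).mul (hF i').rename_isHomogeneous
        · exact (MvPolynomial.isHomogeneous_X _ _).mul (hF i).rename_isHomogeneous
      · rintro _ ⟨w, rfl⟩
        obtain ⟨b, hb, hwrep⟩ := graphFun_rep ρ w
        have hwrow : (fun a => (graphFun ρ w).rep (i₀, a)) = (b * (ρ w).rep i₀) • w.1.rep := by
          rw [hwrep]
          funext a
          simp only [segre, Pi.smul_apply, smul_eq_mul]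
          ring
        rw [map_mul, map_sub, map_mul, map_mul, hren, hren, hren, hwrow, hom_eval hG,
          hom_eval (hF i), hom_eval (hF i'), MvPolynomial.eval_X, MvPolynomial.eval_X]
        by_cases hGw : MvPolynomial.eval w.1.rep G = 0
        · rw [hGw, mul_zero, zero_mul]
        · obtain ⟨h', heq'⟩ := hall w hGw
          obtain ⟨c', hc', hrep'⟩ := rep_eq_of h' heq'
          rw [hwrep]
          simp only [segre, Pi.smul_apply, smul_eq_mul, hrep']
          ring
      · rw [map_mul, map_sub, map_mul, map_mul, hren, hren, hren, hrow, hom_eval hG,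
          hom_eval (hF i), hom_eval (hF i'), MvPolynomial.eval_X, MvPolynomial.eval_X]
        refine mul_ne_zero (mul_ne_zero (pow_ne_zero _ hi₀) hGx) ?_
        rw [hux]
        simp only [segre]
        intro h
        apply hii
        have h2 : x a₀ * u i₀ ^ e * (u i * MvPolynomial.eval x (F i') -
            u i' * MvPolynomial.eval x (F i)) = 0 := by linear_combination h
        have h3 := (mul_eq_zero.mp h2).resolve_left (mul_ne_zero ha₀ (pow_ne_zero _ hi₀))
        exact sub_eq_zero.mp h3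
    · obtain ⟨k, f, hk, hf, hne⟩ := hZ.sep hxZ
      refine ⟨k, MvPolynomial.rename (fun a => (i₀, a)) f, hk.rename_isHomogeneous, ?_, ?_⟩
      · rintro _ ⟨w, rfl⟩
        obtain ⟨b, hb, hwrep⟩ := graphFun_rep ρ w
        rw [MvPolynomial.eval_rename]
        have hwrow : ((graphFun ρ w).rep ∘ fun a => (i₀, a)) = (b * (ρ w).rep i₀) • w.1.rep := by
          rw [hwrep]
          funext a
          simp only [segre, Function.comp_apply, Pi.smul_apply, smul_eq_mul]
          ring
        rw [hwrow, hom_eval hk, hf _ w.2, mul_zero]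
      · rw [MvPolynomial.eval_rename]
        have : (p.rep ∘ fun a => (i₀, a)) = u i₀ • x := hrow
        rw [this, hom_eval hk]
        refine mul_ne_zero (pow_ne_zero _ hi₀) ?_
        intro h
        exact hne ((eval_rep_mk hk x hx).mpr h)
  · push Not at hr
    obtain ⟨i, a, i', a', hne⟩ := hr
    refine ⟨1 + 1, MvPolynomial.X (i, a) * MvPolynomial.X (i', a') -
      MvPolynomial.X (i, a') * MvPolynomial.X (i', a), ?_, ?_, ?_⟩
    · exact ((MvPolynomial.isHomogeneous_X _ _).mul (MvPolynomial.isHomogeneous_X _ _)).sub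
        ((MvPolynomial.isHomogeneous_X _ _).mul (MvPolynomial.isHomogeneous_X _ _))
    · rintro _ ⟨w, rfl⟩
      obtain ⟨b, hb, hwrep⟩ := graphFun_rep ρ w
      simp only [map_sub, map_mul, MvPolynomial.eval_X]
      rw [hwrep]
      simp only [segre, Pi.smul_apply, smul_eq_mul]
      ring
    · simp only [map_sub, map_mul, MvPolynomial.eval_X]
      exact sub_ne_zero.mpr hne

theorem graphFun_inv {Z : Set (PS σ)} (ρ : Z → PS E) :
    IsRegularMap (Set.range (graphFun ρ))
      (fun w => ((Equiv.ofInjective (graphFun ρ) (graphFun_inj ρ)).symm w : PS σ)) := by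
  rintro ⟨p, z, rfl⟩
  obtain ⟨b, hb, hrep⟩ := graphFun_rep ρ z
  obtain ⟨i₀, hi₀⟩ := Function.ne_iff.mp (ρ z).rep_nonzero
  obtain ⟨a₀, ha₀⟩ := Function.ne_iff.mp z.1.rep_nonzero
  refine ⟨1, 1, fun a => MvPolynomial.X (i₀, a), MvPolynomial.X (i₀, a₀),
    fun a => MvPolynomial.isHomogeneous_X _ _, MvPolynomial.isHomogeneous_X _ _, ?_, ?_⟩
  · rw [MvPolynomial.eval_X]
    change (graphFun ρ z).rep (i₀, a₀) ≠ 0
    rw [hrep]
    exact mul_ne_zero hb (mul_ne_zero hi₀ ha₀)
  · rintro ⟨q, w, rfl⟩ hw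
    rw [MvPolynomial.eval_X] at hw
    obtain ⟨b', hb', hrep'⟩ := graphFun_rep ρ w
    have hrow : (fun a => MvPolynomial.eval (graphFun ρ w).rep
        (MvPolynomial.X (i₀, a) : MvPolynomial (E × σ) ℂ)) = (b' * (ρ w).rep i₀) • w.1.rep := by
      funext a
      rw [MvPolynomial.eval_X, hrep']
      simp only [segre, Pi.smul_apply, smul_eq_mul]
      ring
    have hw' : (b' * (ρ w).rep i₀) ≠ 0 := by
      intro h0
      apply hw
      change (graphFun ρ w).rep (i₀, a₀) = 0
      rw [hrep']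
      change b' * ((ρ w).rep i₀ * w.1.rep a₀) = 0
      rw [← mul_assoc, h0, zero_mul]
    have hne : (fun a => MvPolynomial.eval (graphFun ρ w).rep
        (MvPolynomial.X (i₀, a) : MvPolynomial (E × σ) ℂ)) ≠ 0 := by
      rw [hrow]
      exact smul_ne_zero hw' w.1.rep_nonzero
    refine ⟨hne, ?_⟩
    have h1 : ((Equiv.ofInjective (graphFun ρ) (graphFun_inj ρ)).symm
        ⟨graphFun ρ w, ⟨w, rfl⟩⟩ : PS σ) = w.1 := by
      rw [Equiv.ofInjective_symm_apply (graphFun_inj ρ) w]
    beta_reduce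
    rw [h1]
    conv_lhs => rw [← Projectivization.mk_rep w.1]
    refine mk_eq_of_smul _ _ (b' * (ρ w).rep i₀)⁻¹ ?_
    change w.1.rep = _ • (fun a => MvPolynomial.eval (graphFun ρ w).rep
        (MvPolynomial.X (i₀, a) : MvPolynomial (E × σ) ℂ))
    rw [hrow, smul_smul, inv_mul_cancel₀ hw', one_smul]

/-- the closed embedding given by a regular map `ρ` -/
noncomputable def graphEmb [Fintype σ] [Fintype E] {Z : Set (PS σ)} (hZ : IsZClosed Z)
    (ρ : Z → PS E) (hρ : IsRegularMap Z ρ) : ClosedEmb Z where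
  τ := E × σ
  fin := inferInstance
  toFun := graphFun ρ
  inj := graphFun_inj ρ
  regular := graphFun_regular ρ hρ
  closed := graphFun_closed hZ ρ hρ
  inv_regular := graphFun_inv ρ

end Pool.Agent.H286R4
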