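import Mathlib
import Pool.Agent.H286R4.LefBase

/-!
Bounds for Hilbert functions of parametrised sets, and irreducibility of parametrised sets.
-/

namespace Pool.Agent.H286R4

open Module Filter Topology

variable {σ τ ι : Type}

theorem totalDegree_aeval_le {σ ι : Type} (Γ : σ → MvPolynomial ι ℂ) (e : ℕ)
    (hΓ : ∀ a, (Γ a).totalDegree ≤ e) {F : MvPolynomial σ ℂ} {t : ℕ} (hF : F.IsHomogeneous t) :
    (MvPolynomial.aeval Γ F).totalDegree ≤ e * t := by
  rw [MvPolynomial.aeval_def, MvPolynomial.eval₂_eq]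
  refine MvPolynomial.totalDegree_finsetSum_le fun d hd => ?_
  refine (MvPolynomial.totalDegree_mul _ _).trans ?_
  have h0 : (algebraMap ℂ (MvPolynomial ι ℂ) (F.coeff d)).totalDegree = 0 :=
    MvPolynomial.totalDegree_C _
  rw [h0, zero_add]
  refine (MvPolynomial.totalDegree_finset_prod _ _).trans ?_
  have h1 : d.degree = t := by
    by_contra hne
    exact MvPolynomial.mem_support_iff.mp hd (hF.coeff_eq_zero hne)
  calc ∑ i ∈ d.support, (Γ i ^ d i).totalDegree ≤ ∑ i ∈ d.support, d i * e :=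
        Finset.sum_le_sum fun i _ => (MvPolynomial.totalDegree_pow _ _).trans
          (Nat.mul_le_mul_left _ (hΓ i))
    _ = e * t := by
        rw [← Finset.sum_mul, mul_comm, ← h1]
        rfl

/-- a form pulled back to an affine space vanishes if it vanishes on a sufficiently large grid -/
theorem grid_vanish {m : ℕ} (Γ : σ → MvPolynomial (Fin m) ℂ) (e : ℕ)
    (hΓ : ∀ a, (Γ a).totalDegree ≤ e) {F : MvPolynomial σ ℂ} {t : ℕ} (hF : F.IsHomogeneous t)
    (h : ∀ g : Fin m → Fin (e * t + 1),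
      MvPolynomial.eval (fun a => MvPolynomial.eval (fun j => ((g j : ℕ) : ℂ)) (Γ a)) F = 0)
    (u : Fin m → ℂ) : MvPolynomial.eval (fun a => MvPolynomial.eval u (Γ a)) F = 0 := by
  classical
  have h0 : MvPolynomial.aeval Γ F = 0 := by
    refine MvPolynomial.eq_zero_of_eval_zero_at_prod_finset _
      (fun _ => (Finset.range (e * t + 1)).image (fun n : ℕ => (n : ℂ))) ?_ ?_
    · intro i
      rw [Finset.card_image_of_injective _ Nat.cast_injective, Finset.card_range]
      exact Nat.lt_succ_of_le ((MvPolynomial.degreeOf_le_totalDegree _ _).trans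
        (totalDegree_aeval_le Γ e hΓ hF))
    · intro x hx
      have hx' : ∀ i, ∃ n : Fin (e * t + 1), x i = ((n : ℕ) : ℂ) := by
        intro i
        obtain ⟨n, hn, hnx⟩ := Finset.mem_image.mp (hx i)
        exact ⟨⟨n, Finset.mem_range.mp hn⟩, hnx.symm⟩
      choose g hg using hx'
      have : x = fun j => ((g j : ℕ) : ℂ) := funext hg
      rw [eval_aeval', this]
      exact h g
  rw [← eval_aeval', h0, map_zero]

/-- upper bound for the Hilbert function of a set dominated by an affine space -/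
theorem hilb_upper [Finite σ] {m : ℕ} (Γ : σ → MvPolynomial (Fin m) ℂ) (e : ℕ)
    (hΓ : ∀ a, (Γ a).totalDegree ≤ e) (D : Set (PS σ)) (t : ℕ)
    (hD : ∀ F : MvPolynomial σ ℂ, F.IsHomogeneous t →
      (∀ u : Fin m → ℂ, MvPolynomial.eval (fun a => MvPolynomial.eval u (Γ a)) F = 0) →
      ∀ p ∈ D, MvPolynomial.eval p.rep F = 0) :
    hilb D t ≤ (e * t + 1) ^ m := by
  let f : MvPolynomial.homogeneousSubmodule σ ℂ t →ₗ[ℂ] ((Fin m → Fin (e * t + 1)) → ℂ) :=
    { toFun := fun F g =>
        MvPolynomial.eval (fun a => MvPolynomial.eval (fun j => ((g j : ℕ) : ℂ)) (Γ a)) F.1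
      map_add' := by
        intro a b; funext g; rw [Submodule.coe_add, map_add]; rfl
      map_smul' := by
        intro c a; funext g
        rw [Submodule.coe_smul, MvPolynomial.smul_eval]; rfl }
  have h1 := quot_le_of_ker (vanForms D t) f (fun F hF => by
    have hhom : F.1.IsHomogeneous t := (MvPolynomial.mem_homogeneousSubmodule _ _).mp F.2
    exact hD F.1 hhom (grid_vanish Γ e hΓ hhom fun g => congrFun hF g))
  rw [Module.finrank_fintype_fun_eq_card, Fintype.card_fun, Fintype.card_fin,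
    Fintype.card_fin] at h1
  exact h1

/-- density: a form vanishing where `W` does not vanish vanishes everywhere -/
theorem dense_vanish (Γ : σ → MvPolynomial ι ℂ) (F : MvPolynomial σ ℂ) (W : MvPolynomial ι ℂ)
    (hW : W ≠ 0) (h : ∀ u, MvPolynomial.eval u W ≠ 0 →
      MvPolynomial.eval (fun a => MvPolynomial.eval u (Γ a)) F = 0) (u : ι → ℂ) :
    MvPolynomial.eval (fun a => MvPolynomial.eval u (Γ a)) F = 0 := by
  have h0 : MvPolynomial.aeval Γ F * W = 0 := by
    refine MvPolynomial.funext fun u => ?_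
    rw [map_mul, map_zero, eval_aeval']
    by_cases hu : MvPolynomial.eval u W = 0
    · rw [hu, mul_zero]
    · rw [h u hu, zero_mul]
  rw [← eval_aeval', (mul_eq_zero.mp h0).resolve_right hW, map_zero]

/-- lower bound for the Hilbert function from forms that pull back to distinct monomials -/
theorem hilb_lower [Finite σ] {m : ℕ} (D : Set (PS σ)) (t : ℕ) (κ : Type) [Fintype κ]
    (M : κ → MvPolynomial σ ℂ) (hM : ∀ k, (M k).IsHomogeneous t) (γ : (Fin m → ℂ) → σ → ℂ)
    (e : κ → Fin m → ℕ) (he : Function.Injective e)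
    (hMe : ∀ k u, MvPolynomial.eval (γ u) (M k) = ∏ j, u j ^ e k j)
    (hD : ∀ F : MvPolynomial σ ℂ, F.IsHomogeneous t → (∀ p ∈ D, MvPolynomial.eval p.rep F = 0) →
      ∀ u, MvPolynomial.eval (γ u) F = 0) : Fintype.card κ ≤ hilb D t := by
  classical
  have hfin := finite_forms σ t
  let f : (κ → ℂ) →ₗ[ℂ] MvPolynomial.homogeneousSubmodule σ ℂ t :=
    Fintype.linearCombination ℂ (fun k => (⟨M k, (MvPolynomial.mem_homogeneousSubmodule _ _).mpr
      (hM k)⟩ : MvPolynomial.homogeneousSubmodule σ ℂ t))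
  have h1 := le_quot (vanForms D t) f (fun a ha => by
    have hfa : (f a).1 = ∑ k, MvPolynomial.C (a k) * M k := by
      rw [Fintype.linearCombination_apply, Submodule.coe_sum]
      refine Finset.sum_congr rfl fun k _ => ?_
      rw [Submodule.coe_smul, MvPolynomial.smul_eq_C_mul]
    have h2 := hD (f a).1 ((MvPolynomial.mem_homogeneousSubmodule _ _).mp (f a).2) ha
    have h3 : (∑ k, MvPolynomial.monomial (Finsupp.equivFunOnFinite.symm (e k)) (a k) :
        MvPolynomial (Fin m) ℂ) = 0 := by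
      refine MvPolynomial.funext fun u => ?_
      have h4 := h2 u
      rw [hfa, map_sum] at h4
      rw [map_sum, map_zero, ← h4]
      refine Finset.sum_congr rfl fun k _ => ?_
      rw [map_mul, MvPolynomial.eval_C, hMe, MvPolynomial.eval_monomial,
        Finsupp.prod_fintype _ _ (fun i => pow_zero _)]
      rfl
    funext k
    have h5 := congrArg (MvPolynomial.coeff (Finsupp.equivFunOnFinite.symm (e k))) h3
    rw [MvPolynomial.coeff_sum, MvPolynomial.coeff_zero, Finset.sum_eq_single k] at h5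
    · rw [MvPolynomial.coeff_monomial, if_pos rfl] at h5
      exact h5
    · intro k' _ hk'
      rw [MvPolynomial.coeff_monomial, if_neg]
      intro h6
      exact hk' (he (Finsupp.equivFunOnFinite.symm.injective h6))
    · intro h6
      exact absurd (Finset.mem_univ k) h6)
  rw [Module.finrank_fintype_fun_eq_card] at h1
  exact h1

/-- parametrised closed sets are irreducible -/
theorem variety_of_param (Γ : σ → MvPolynomial ι ℂ) (D : Set (PS σ)) (hD : IsZClosed D)
    (hne : D.Nonempty) (h1 : ∀ p ∈ D, ∃ u, p.rep = fun a => MvPolynomial.eval u (Γ a))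
    (h2 : ∀ u (h : (fun a => MvPolynomial.eval u (Γ a)) ≠ 0), Projectivization.mk ℂ _ h ∈ D) :
    IsVariety D := by
  refine ⟨hD, hne, fun Z₁ Z₂ hZ₁ hZ₂ hsub => ?_⟩
  by_contra hcon
  push Not at hcon
  obtain ⟨hc1, hc2⟩ := hcon
  obtain ⟨p₁, hp₁, hp₁Z⟩ := Set.not_subset.mp hc1
  obtain ⟨p₂, hp₂, hp₂Z⟩ := Set.not_subset.mp hc2
  obtain ⟨k₁, f₁, hk₁, hf₁, hne₁⟩ := hZ₁.sep hp₁Z
  obtain ⟨k₂, f₂, hk₂, hf₂, hne₂⟩ := hZ₂.sep hp₂Z
  obtain ⟨u₁, hu₁⟩ := h1 p₁ hp₁
  obtain ⟨u₂, hu₂⟩ := h1 p₂ hp₂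
  obtain ⟨a₀, ha₀⟩ := Function.ne_iff.mp p₁.rep_nonzero
  have hg₁ : MvPolynomial.aeval Γ f₁ ≠ 0 := by
    intro h
    apply hne₁
    rw [hu₁, ← eval_aeval', h, map_zero]
  have hg₂ : MvPolynomial.aeval Γ f₂ ≠ 0 := by
    intro h
    apply hne₂
    rw [hu₂, ← eval_aeval', h, map_zero]
  have hg₃ : Γ a₀ ≠ 0 := by
    intro h
    apply ha₀
    rw [hu₁]
    change MvPolynomial.eval u₁ (Γ a₀) = 0
    rw [h, map_zero]
  refine mul_ne_zero (mul_ne_zero hg₁ hg₂) hg₃ (MvPolynomial.funext fun u => ?_)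
  rw [map_mul, map_mul, map_zero, eval_aeval', eval_aeval']
  by_cases hu : (fun a => MvPolynomial.eval u (Γ a)) = 0
  · have : MvPolynomial.eval u (Γ a₀) = 0 := congrFun hu a₀
    rw [this, mul_zero]
  · have hmem := h2 u hu
    rcases hsub hmem with h | h
    · have := hf₁ _ h
      rw [eval_rep_mk hk₁] at this
      rw [this, zero_mul, zero_mul]
    · have := hf₂ _ h
      rw [eval_rep_mk hk₂] at this
      rw [this, mul_zero, zero_mul]

/-- two-sided polynomial bounds give the dimension -/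
theorem hasDim_of_bounds (D : Set (PS σ)) (k : ℕ) (c₁ c₂ : ℝ) (hc₁ : 0 < c₁)
    (hlow : ∀ t : ℕ, 1 ≤ t → c₁ * (t : ℝ) ^ k ≤ hilb D t)
    (hup : ∀ t : ℕ, 1 ≤ t → (hilb D t : ℝ) ≤ c₂ * (t : ℝ) ^ k) : HasDim D k := by
  constructor
  · refine Asymptotics.IsBigO.of_bound c₂ ?_
    filter_upwards [eventually_ge_atTop 1] with t ht
    rw [Real.norm_of_nonneg (Nat.cast_nonneg _), Real.norm_of_nonneg (by positivity)]
    exact hup t ht
  · refine Asymptotics.IsBigO.of_bound c₁⁻¹ ?_
    filter_upwards [eventually_ge_atTop 1] with t ht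
    rw [Real.norm_of_nonneg (Nat.cast_nonneg _), Real.norm_of_nonneg (by positivity)]
    have := hlow t ht
    rw [inv_mul_eq_div, le_div_iff₀ hc₁]
    linarith

end Pool.Agent.H286R4
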