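import Mathlib
import Pool.Agent.H286R4.LefHilb

/-!
The fourfold `Y`: the scroll of vectors `x (c, none) = s c * z`, `x (c, some (i, e)) =
s c * s e * v i` with `s : Fin 2 → ℂ`, `v : Fin 3 → ℂ`, `z : ℂ`, and the curve `C` where `v = 0`.
-/

namespace Pool.Agent.H286R4

open Module Filter Topology

/-- the seven coordinates `z`, `s e * v i` -/
abbrev J := Option (Fin 3 × Fin 2)

/-- the fourteen coordinates of the ambient space -/
abbrev SY := Fin 2 × J

/-- the vector `(z, s e * v i)` -/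
def rVec (s : Fin 2 → ℂ) (v : Fin 3 → ℂ) (z : ℂ) : J → ℂ
  | none => z
  | some (i, e) => s e * v i

/-- the vector `s ⊗ (z, s e * v i)` -/
def xVec (s : Fin 2 → ℂ) (v : Fin 3 → ℂ) (z : ℂ) : SY → ℂ := segre s (rVec s v z)

theorem xVec_smul (s : Fin 2 → ℂ) (v : Fin 3 → ℂ) (z c : ℂ) :
    c • xVec s v z = xVec s (c • v) (c * z) := by
  funext ⟨a, j⟩
  rcases j with _ | ⟨i, e⟩ <;> simp only [xVec, segre, rVec, Pi.smul_apply, smul_eq_mul] <;> ring

/-- the fourfold -/
def Yset : Set (PS SY) := {p | ∃ s v z, p.rep = xVec s v z}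

/-- the curve -/
def Cset : Set (PS SY) := {p | ∃ s, p.rep = xVec s 0 1}

theorem mk_mem_Y (s : Fin 2 → ℂ) (v : Fin 3 → ℂ) (z : ℂ) (h : xVec s v z ≠ 0) :
    Projectivization.mk ℂ _ h ∈ Yset := by
  obtain ⟨c, _, hc⟩ := rep_mk _ h
  exact ⟨s, c • v, c * z, by rw [hc, xVec_smul]⟩

theorem xVec_ne {s : Fin 2 → ℂ} {v : Fin 3 → ℂ} {z : ℂ} (h : xVec s v z ≠ 0) :
    s ≠ 0 ∧ rVec s v z ≠ 0 := by
  constructor
  · rintro rfl
    apply h
    funext q
    simp [xVec, segre]
  · intro h0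
    apply h
    funext q
    simp [xVec, segre, h0]

theorem solve_Y {x : SY → ℂ} (hx : x ≠ 0)
    (h1 : ∀ i a i' a', x (i, a) * x (i', a') = x (i, a') * x (i', a))
    (h2 : ∀ c e i, x (c, some (i, e)) = x (e, some (i, c))) :
    ∃ s v z, x = xVec s v z := by
  obtain ⟨u, r, hu, hr, rfl⟩ := rank_one hx h1
  obtain ⟨c₀, hc₀⟩ := Function.ne_iff.mp hu
  simp only [Pi.zero_apply] at hc₀
  refine ⟨u, fun i => r (some (i, c₀)) / u c₀, r none, ?_⟩
  have h3 : rVec u (fun i => r (some (i, c₀)) / u c₀) (r none) = r := by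
    funext j
    rcases j with _ | ⟨i, e⟩
    · rfl
    · have := h2 c₀ e i
      simp only [segre] at this
      simp only [rVec]
      field_simp
      linear_combination -this
  rw [xVec, h3]

theorem Y_closed : IsZClosed Yset := by
  refine isZClosed_of fun p hp => ?_
  by_cases h1 : ∀ i a i' a', p.rep (i, a) * p.rep (i', a') = p.rep (i, a') * p.rep (i', a)
  · by_cases h2 : ∀ c e i, p.rep (c, some (i, e)) = p.rep (e, some (i, c))
    · exact absurd (solve_Y p.rep_nonzero h1 h2) hp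
    · push Not at h2
      obtain ⟨c, e, i, hne⟩ := h2
      refine ⟨1, MvPolynomial.X (c, some (i, e)) - MvPolynomial.X (e, some (i, c)),
        (MvPolynomial.isHomogeneous_X _ _).sub (MvPolynomial.isHomogeneous_X _ _), ?_, ?_⟩
      · rintro q ⟨s, v, z, hq⟩
        rw [map_sub, MvPolynomial.eval_X, MvPolynomial.eval_X, hq]
        simp only [xVec, segre, rVec]
        ring
      · rw [map_sub, MvPolynomial.eval_X, MvPolynomial.eval_X]
        exact sub_ne_zero.mpr hne
  · push Not at h1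
    obtain ⟨i, a, i', a', hne⟩ := h1
    refine ⟨1 + 1, MvPolynomial.X (i, a) * MvPolynomial.X (i', a') -
      MvPolynomial.X (i, a') * MvPolynomial.X (i', a), ?_, ?_, ?_⟩
    · exact ((MvPolynomial.isHomogeneous_X _ _).mul (MvPolynomial.isHomogeneous_X _ _)).sub
        ((MvPolynomial.isHomogeneous_X _ _).mul (MvPolynomial.isHomogeneous_X _ _))
    · rintro q ⟨s, v, z, hq⟩
      simp only [map_sub, map_mul, MvPolynomial.eval_X]
      rw [hq]
      simp only [xVec, segre]
      ring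
    · simp only [map_sub, map_mul, MvPolynomial.eval_X]
      exact sub_ne_zero.mpr hne

theorem C_subset_Y : Cset ⊆ Yset := by
  rintro p ⟨s, hs⟩
  exact ⟨s, 0, 1, hs⟩

theorem xVec_zero (s : Fin 2 → ℂ) (z : ℂ) : xVec s 0 z = xVec (z • s) 0 1 := by
  funext ⟨a, j⟩
  rcases j with _ | ⟨i, e⟩ <;>
    simp only [xVec, segre, rVec, Pi.smul_apply, smul_eq_mul, Pi.zero_apply] <;> ring

/-- a point of `Y` with `v = 0` is on `C` -/
theorem mem_C_iff {p : PS SY} {s v z} (hp : p.rep = xVec s v z) : p ∈ Cset ↔ v = 0 := by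
  have hne : xVec s v z ≠ 0 := hp ▸ p.rep_nonzero
  constructor
  · rintro ⟨s', hs'⟩
    obtain ⟨c, hc⟩ := Function.ne_iff.mp (xVec_ne hne).1
    simp only [Pi.zero_apply] at hc
    funext i
    have := congrFun (hs'.symm.trans hp) (c, some (i, c))
    simp only [xVec, segre, rVec, Pi.zero_apply, mul_zero] at this
    rw [eq_comm, mul_eq_zero, mul_eq_zero] at this
    rcases this with h | h | h
    · exact absurd h hc
    · exact absurd h hc
    · exact h
  · rintro rfl
    exact ⟨z • s, by rw [hp, xVec_zero]⟩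

theorem C_closed : IsZClosed Cset := by
  refine isZClosed_of fun p hp => ?_
  by_cases hY : p ∈ Yset
  · obtain ⟨s, v, z, hpx⟩ := hY
    have hv : v ≠ 0 := fun h => hp ((mem_C_iff hpx).mpr h)
    have hne : xVec s v z ≠ 0 := hpx ▸ p.rep_nonzero
    obtain ⟨c, hc⟩ := Function.ne_iff.mp (xVec_ne hne).1
    obtain ⟨i, hi⟩ := Function.ne_iff.mp hv
    simp only [Pi.zero_apply] at hc hi
    refine ⟨1, MvPolynomial.X (c, some (i, c)), MvPolynomial.isHomogeneous_X _ _, ?_, ?_⟩
    · rintro q ⟨s', hq⟩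
      rw [MvPolynomial.eval_X, hq]
      simp [xVec, segre, rVec]
    · rw [MvPolynomial.eval_X, hpx]
      simp only [xVec, segre, rVec]
      exact mul_ne_zero hc (mul_ne_zero hc hi)
  · obtain ⟨k, f, hk, hf, hne⟩ := Y_closed.sep hY
    exact ⟨k, f, hk, fun q hq => hf q (C_subset_Y hq), hne⟩

/-- the polynomials parametrising `Y`: variables `inl c` for `s c`, `inr (some i)` for `v i`,
`inr none` for `z` -/
noncomputable def ΓY : SY → MvPolynomial (Fin 2 ⊕ Option (Fin 3)) ℂ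
  | (c, none) => MvPolynomial.X (Sum.inl c) * MvPolynomial.X (Sum.inr none)
  | (c, some (i, e)) => MvPolynomial.X (Sum.inl c) *
      (MvPolynomial.X (Sum.inl e) * MvPolynomial.X (Sum.inr (some i)))

theorem ΓY_eval (u : Fin 2 ⊕ Option (Fin 3) → ℂ) :
    (fun a => MvPolynomial.eval u (ΓY a)) =
      xVec (fun c => u (Sum.inl c)) (fun i => u (Sum.inr (some i))) (u (Sum.inr none)) := by
  funext ⟨c, j⟩
  rcases j with _ | ⟨i, e⟩ <;> simp [ΓY, xVec, segre, rVec]

theorem exists_u (s : Fin 2 → ℂ) (v : Fin 3 → ℂ) (z : ℂ) :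
    ∃ u : Fin 2 ⊕ Option (Fin 3) → ℂ, (fun a => MvPolynomial.eval u (ΓY a)) = xVec s v z :=
  ⟨Sum.elim s fun o => o.elim z v, by rw [ΓY_eval]; rfl⟩

theorem Y_variety : IsVariety Yset := by
  refine variety_of_param ΓY _ Y_closed ?_ ?_ ?_
  · have h : xVec (fun _ => 1) 0 1 ≠ 0 := by
      intro h
      have := congrFun h (0, none)
      simp [xVec, segre, rVec] at this
    exact ⟨_, mk_mem_Y _ _ _ h⟩
  · rintro p ⟨s, v, z, hp⟩
    obtain ⟨u, hu⟩ := exists_u s v z
    exact ⟨u, by rw [hp, hu]⟩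
  · intro u h
    have h' := h
    rw [ΓY_eval] at h'
    have h2 := mk_mem_Y _ _ _ h'
    convert h2 using 2
    exact ΓY_eval u

/-- the polynomials parametrising `C` -/
noncomputable def ΓC : SY → MvPolynomial (Fin 2) ℂ
  | (c, none) => MvPolynomial.X c
  | (_, some _) => 0

theorem ΓC_eval (u : Fin 2 → ℂ) : (fun a => MvPolynomial.eval u (ΓC a)) = xVec u 0 1 := by
  funext ⟨c, j⟩
  rcases j with _ | ⟨i, e⟩ <;> simp [ΓC, xVec, segre, rVec]

theorem mk_mem_C (s : Fin 2 → ℂ) (h : xVec s 0 1 ≠ 0) : Projectivization.mk ℂ _ h ∈ Cset := by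
  obtain ⟨c, _, hc⟩ := rep_mk _ h
  refine ⟨c • s, ?_⟩
  rw [hc, xVec_smul, smul_zero, xVec_zero, mul_one]

theorem C_variety : IsVariety Cset := by
  refine variety_of_param ΓC _ C_closed ?_ ?_ ?_
  · have h : xVec (fun _ => 1) 0 1 ≠ 0 := by
      intro h
      have := congrFun h (0, none)
      simp [xVec, segre, rVec] at this
    exact ⟨_, mk_mem_C _ h⟩
  · rintro p ⟨s, hp⟩
    exact ⟨s, by rw [hp, ΓC_eval]⟩
  · intro u h
    have h' := h
    rw [ΓC_eval] at h'
    have h2 := mk_mem_C _ h'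
    convert h2 using 2
    exact ΓC_eval u

end Pool.Agent.H286R4
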