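import Mathlib
import Pool.Agent.H286R4.LefY

/-!
The two regular maps `Y → P^1` and `Y → P^6`, the embeddings they define, and the comparison of
Hilbert functions.
-/

namespace Pool.Agent.H286R4

open Module Filter Topology

/-- the parameter `s` of a point of `Y` -/
noncomputable def sP (y : Yset) : Fin 2 → ℂ := Classical.choose y.2

theorem sP_spec (y : Yset) : ∃ v z, y.1.rep = xVec (sP y) v z := Classical.choose_spec y.2

/-- the parameter `v` of a point of `Y` -/
noncomputable def vP (y : Yset) : Fin 3 → ℂ := Classical.choose (sP_spec y)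

theorem vP_spec (y : Yset) : ∃ z, y.1.rep = xVec (sP y) (vP y) z :=
  Classical.choose_spec (sP_spec y)

/-- the parameter `z` of a point of `Y` -/
noncomputable def zP (y : Yset) : ℂ := Classical.choose (vP_spec y)

theorem rep_P (y : Yset) : y.1.rep = xVec (sP y) (vP y) (zP y) :=
  Classical.choose_spec (vP_spec y)

/-- the vector `(z, s e * v i)` of a point of `Y` -/
noncomputable def rP (y : Yset) : J → ℂ := rVec (sP y) (vP y) (zP y)

theorem rep_sr (y : Yset) : y.1.rep = segre (sP y) (rP y) := rep_P y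

theorem sP_ne (y : Yset) : sP y ≠ 0 := (xVec_ne (rep_P y ▸ y.1.rep_nonzero)).1

theorem rP_ne (y : Yset) : rP y ≠ 0 := (xVec_ne (rep_P y ▸ y.1.rep_nonzero)).2

/-- the projection `Y → P^1` -/
noncomputable def ρs (y : Yset) : PS (Fin 2) := Projectivization.mk ℂ (sP y) (sP_ne y)

/-- the projection `Y → P^6` -/
noncomputable def ρr (y : Yset) : PS J := Projectivization.mk ℂ (rP y) (rP_ne y)

theorem ρs_regular : IsRegularMap Yset ρs := by
  intro y
  obtain ⟨⟨c₀, j₀⟩, h0⟩ := Function.ne_iff.mp y.1.rep_nonzero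
  refine ⟨1, 1, fun e => MvPolynomial.X (e, j₀), MvPolynomial.X (c₀, j₀),
    fun _ => MvPolynomial.isHomogeneous_X _ _, MvPolynomial.isHomogeneous_X _ _, ?_, ?_⟩
  · rw [MvPolynomial.eval_X]; exact h0
  · intro w hw
    rw [MvPolynomial.eval_X] at hw
    have h1 : (fun e => MvPolynomial.eval w.1.rep (MvPolynomial.X (e, j₀) : MvPolynomial SY ℂ)) =
        rP w j₀ • sP w := by
      funext e
      rw [MvPolynomial.eval_X, rep_sr]
      simp only [segre, Pi.smul_apply, smul_eq_mul]
      ring
    have h2 : (fun e => MvPolynomial.eval w.1.rep (MvPolynomial.X (e, j₀) : MvPolynomial SY ℂ)) ≠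
        0 := by
      intro h
      apply hw
      have := congrFun h c₀
      simpa using this
    have h3 : rP w j₀ ≠ 0 := by
      intro h
      rw [h1, h, zero_smul] at h2
      exact h2 rfl
    refine ⟨h2, mk_eq_of_smul _ _ (rP w j₀)⁻¹ ?_⟩
    rw [h1, smul_smul, inv_mul_cancel₀ h3, one_smul]

theorem ρr_regular : IsRegularMap Yset ρr := by
  intro y
  obtain ⟨⟨c₀, j₀⟩, h0⟩ := Function.ne_iff.mp y.1.rep_nonzero
  refine ⟨1, 1, fun j => MvPolynomial.X (c₀, j), MvPolynomial.X (c₀, j₀),
    fun _ => MvPolynomial.isHomogeneous_X _ _, MvPolynomial.isHomogeneous_X _ _, ?_, ?_⟩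
  · rw [MvPolynomial.eval_X]; exact h0
  · intro w hw
    rw [MvPolynomial.eval_X] at hw
    have h1 : (fun j => MvPolynomial.eval w.1.rep (MvPolynomial.X (c₀, j) : MvPolynomial SY ℂ)) =
        sP w c₀ • rP w := by
      funext e
      rw [MvPolynomial.eval_X, rep_sr]
      simp only [segre, Pi.smul_apply, smul_eq_mul]
    have h2 : (fun j => MvPolynomial.eval w.1.rep (MvPolynomial.X (c₀, j) : MvPolynomial SY ℂ)) ≠
        0 := by
      intro h
      apply hw
      have := congrFun h j₀
      simpa using this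
    have h3 : sP w c₀ ≠ 0 := by
      intro h
      rw [h1, h, zero_smul] at h2
      exact h2 rfl
    refine ⟨h2, mk_eq_of_smul _ _ (sP w c₀)⁻¹ ?_⟩
    rw [h1, smul_smul, inv_mul_cancel₀ h3, one_smul]

/-- the embedding by `O(2, 1)` -/
noncomputable def φs : ClosedEmb Yset := graphEmb Y_closed ρs ρs_regular

/-- the embedding by `O(1, 2)` -/
noncomputable def φr : ClosedEmb Yset := graphEmb Y_closed ρr ρr_regular

theorem eval_smul_iff {σ : Type} {F : MvPolynomial σ ℂ} {t : ℕ} (hF : F.IsHomogeneous t) {c : ℂ}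
    (hc : c ≠ 0) (v : σ → ℂ) : MvPolynomial.eval (c • v) F = 0 ↔ MvPolynomial.eval v F = 0 := by
  rw [hom_eval hF]
  exact mul_eq_zero_iff_left (pow_ne_zero _ hc)

theorem van_φs (D : Set (PS SY)) {t : ℕ} {F : MvPolynomial (Fin 2 × SY) ℂ}
    (hF : F.IsHomogeneous t) : (∀ q ∈ φs.image D, MvPolynomial.eval q.rep F = 0) ↔
      ∀ y : Yset, y.1 ∈ D → MvPolynomial.eval (segre (sP y) y.1.rep) F = 0 := by
  have key : ∀ y : Yset, MvPolynomial.eval (graphFun ρs y).rep F = 0 ↔
      MvPolynomial.eval (segre (sP y) y.1.rep) F = 0 := by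
    intro y
    obtain ⟨c, hc, h⟩ := graphFun_rep ρs y
    obtain ⟨c', hc', h'⟩ := rep_mk (sP y) (sP_ne y)
    have h1 : (graphFun ρs y).rep = (c * c') • segre (sP y) y.1.rep := by
      rw [h]
      change c • segre (Projectivization.mk ℂ (sP y) (sP_ne y)).rep _ = _
      rw [h']
      funext q
      simp only [segre, Pi.smul_apply, smul_eq_mul]
      ring
    rw [h1, eval_smul_iff hF (mul_ne_zero hc hc')]
  constructor
  · intro h y hy
    exact (key y).mp (h _ ⟨y, hy, rfl⟩)
  · rintro h q ⟨y, hy, rfl⟩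
    exact (key y).mpr (h y hy)

theorem van_φr (D : Set (PS SY)) {t : ℕ} {F : MvPolynomial (J × SY) ℂ}
    (hF : F.IsHomogeneous t) : (∀ q ∈ φr.image D, MvPolynomial.eval q.rep F = 0) ↔
      ∀ y : Yset, y.1 ∈ D → MvPolynomial.eval (segre (rP y) y.1.rep) F = 0 := by
  have key : ∀ y : Yset, MvPolynomial.eval (graphFun ρr y).rep F = 0 ↔
      MvPolynomial.eval (segre (rP y) y.1.rep) F = 0 := by
    intro y
    obtain ⟨c, hc, h⟩ := graphFun_rep ρr y
    obtain ⟨c', hc', h'⟩ := rep_mk (rP y) (rP_ne y)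
    have h1 : (graphFun ρr y).rep = (c * c') • segre (rP y) y.1.rep := by
      rw [h]
      change c • segre (Projectivization.mk ℂ (rP y) (rP_ne y)).rep _ = _
      rw [h']
      funext q
      simp only [segre, Pi.smul_apply, smul_eq_mul]
      ring
    rw [h1, eval_smul_iff hF (mul_ne_zero hc hc')]
  constructor
  · intro h y hy
    exact (key y).mp (h _ ⟨y, hy, rfl⟩)
  · rintro h q ⟨y, hy, rfl⟩
    exact (key y).mpr (h y hy)

/-- a closed set given by a family of homogeneous polynomials -/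
theorem isZClosed_family {σ κ : Type} (f : κ → MvPolynomial σ ℂ)
    (hf : ∀ k, ∃ d, (f k).IsHomogeneous d) :
    IsZClosed {p : PS σ | ∀ k, MvPolynomial.eval p.rep (f k) = 0} := by
  refine ⟨Set.range f, ?_, ?_⟩
  · rintro _ ⟨k, rfl⟩
    exact hf k
  · ext p
    constructor
    · rintro h _ ⟨k, rfl⟩
      exact h k
    · intro h k
      exact h _ ⟨k, rfl⟩

/-- multiplication by `v i`: if `v i` does not vanish identically on the variety `D ⊆ Y`, the
Hilbert function of `D` for `O(2, 1)` is at most that for `O(1, 2)` -/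
theorem hilb_s_le_r {D : Set (PS SY)} (hD : IsVariety D) (hDY : D ⊆ Yset) (hDC : ¬ D ⊆ Cset)
    (t : ℕ) : hilb (φs.image D) t ≤ hilb (φr.image D) t := by
  obtain ⟨p, hp, hpC⟩ := Set.not_subset.mp hDC
  have hv : vP ⟨p, hDY hp⟩ ≠ 0 := by
    intro h
    exact hpC ((mem_C_iff (rep_P ⟨p, hDY hp⟩)).mpr h)
  obtain ⟨i, hi⟩ := Function.ne_iff.mp hv
  simp only [Pi.zero_apply] at hi
  have h1 : hilb (φr.image D) t = hilb (φr.image D) (1 * t) := by rw [one_mul]
  rw [h1]
  have hfin' : Module.Finite ℂ (MvPolynomial.homogeneousSubmodule φr.τ ℂ (1 * t)) :=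
    finite_forms (J × SY) (1 * t)
  refine quot_le (V := MvPolynomial.homogeneousSubmodule (Fin 2 × SY) ℂ t)
    (W := MvPolynomial.homogeneousSubmodule φr.τ ℂ (1 * t)) (vanForms (φs.image D) t)
    (vanForms (φr.image D) (1 * t))
    (substMap (fun q : Fin 2 × SY => MvPolynomial.X (some (i, q.1), q.2)) 1
      (fun q => MvPolynomial.isHomogeneous_X _ _) t) ?_
  intro F hF
  have hFh : F.1.IsHomogeneous t := (MvPolynomial.mem_homogeneousSubmodule _ _).mp F.2
  have hG := (van_φr D ((MvPolynomial.mem_homogeneousSubmodule _ _).mp (substMap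
    (fun q : Fin 2 × SY => (MvPolynomial.X (some (i, q.1), q.2) : MvPolynomial (J × SY) ℂ)) 1
      (fun q => MvPolynomial.isHomogeneous_X _ _) t F).2)).mp hF
  refine (van_φs D hFh).mpr ?_
  have h2 : ∀ y : Yset, y.1 ∈ D →
      vP y i ^ t * MvPolynomial.eval (segre (sP y) y.1.rep) F.1 = 0 := by
    intro y hy
    have := hG y hy
    rw [substMap_eval] at this
    rw [← hom_eval hFh, ← this]
    congr 2
    funext q
    rw [MvPolynomial.eval_X]
    simp only [segre, Pi.smul_apply, smul_eq_mul, rP, rVec]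
    ring
  -- the two closed sets
  have hsub : D ⊆ {q : PS SY | ∀ k : Fin 2 × Fin 2, MvPolynomial.eval q.rep
        (MvPolynomial.X (k.1, some (i, k.2)) : MvPolynomial SY ℂ) = 0} ∪
      {q : PS SY | ∀ j : J, MvPolynomial.eval q.rep (MvPolynomial.aeval
        (fun b : Fin 2 × SY => (MvPolynomial.X (b.1, j) * MvPolynomial.X b.2 :
          MvPolynomial SY ℂ)) F.1) = 0} := by
    intro q hq
    have h3 := h2 ⟨q, hDY hq⟩ hq
    rcases mul_eq_zero.mp h3 with h | h
    · left
      rintro ⟨c, e⟩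
      have h4 := eq_zero_of_pow_eq_zero h
      rw [MvPolynomial.eval_X]
      change q.rep (c, some (i, e)) = 0
      have := congrFun (rep_P ⟨q, hDY hq⟩) (c, some (i, e))
      rw [this]
      simp only [xVec, segre, rVec, h4, mul_zero]
    · right
      intro j
      rw [eval_aeval']
      have h5 : (fun b : Fin 2 × SY => MvPolynomial.eval q.rep (MvPolynomial.X (b.1, j) *
          MvPolynomial.X b.2 : MvPolynomial SY ℂ)) =
          rP ⟨q, hDY hq⟩ j • segre (sP ⟨q, hDY hq⟩) q.rep := by
        funext b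
        rw [map_mul, MvPolynomial.eval_X, MvPolynomial.eval_X]
        have := congrFun (rep_sr ⟨q, hDY hq⟩) (b.1, j)
        rw [this]
        simp only [segre, Pi.smul_apply, smul_eq_mul]
        ring
      rw [h5, hom_eval hFh]
      exact mul_eq_zero_of_right _ h
  rcases hD.2.2 _ _ (isZClosed_family _ fun k => ⟨1, MvPolynomial.isHomogeneous_X _ _⟩)
    (isZClosed_family _ fun k => ⟨_, hFh.aeval _ fun b =>
      (MvPolynomial.isHomogeneous_X _ _).mul (MvPolynomial.isHomogeneous_X _ _)⟩) hsub with h | h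
  · exfalso
    have h6 := h hp
    obtain ⟨c, hc⟩ := Function.ne_iff.mp (sP_ne ⟨p, hDY hp⟩)
    have h7 := h6 (c, c)
    rw [MvPolynomial.eval_X] at h7
    change p.rep (c, some (i, c)) = 0 at h7
    have := congrFun (rep_P ⟨p, hDY hp⟩) (c, some (i, c))
    rw [this] at h7
    simp only [xVec, segre, rVec] at h7
    exact mul_ne_zero hc (mul_ne_zero hc hi) h7
  · intro y hy
    obtain ⟨j, hj⟩ := Function.ne_iff.mp (rP_ne y)
    have h8 := h hy j
    rw [eval_aeval'] at h8
    have h5 : (fun b : Fin 2 × SY => MvPolynomial.eval y.1.rep (MvPolynomial.X (b.1, j) *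
        MvPolynomial.X b.2 : MvPolynomial SY ℂ)) = rP y j • segre (sP y) y.1.rep := by
      funext b
      rw [map_mul, MvPolynomial.eval_X, MvPolynomial.eval_X]
      have := congrFun (rep_sr y) (b.1, j)
      rw [this]
      simp only [segre, Pi.smul_apply, smul_eq_mul]
      ring
    rw [h5] at h8
    exact (eval_smul_iff hFh hj _).mp h8

/-- boundedness: the Hilbert function for `O(1, 2)` is at most that for `O(2, 2)` -/
theorem hilb_r_le {D : Set (PS SY)} (hD : IsVariety D) (hDY : D ⊆ Yset) (t : ℕ) :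
    hilb (φr.image D) t ≤ hilb D (2 * t) := by
  obtain ⟨p, hp⟩ := hD.2.1
  obtain ⟨c, hc⟩ := Function.ne_iff.mp (sP_ne ⟨p, hDY hp⟩)
  simp only [Pi.zero_apply] at hc
  have hfin := finite_forms SY (2 * t)
  refine quot_le (V := MvPolynomial.homogeneousSubmodule (J × SY) ℂ t)
    (W := MvPolynomial.homogeneousSubmodule SY ℂ (2 * t)) (vanForms (φr.image D) t)
    (vanForms D (2 * t))
    (substMap (fun q : J × SY => MvPolynomial.X (c, q.1) * MvPolynomial.X q.2) (1 + 1)
      (fun q => (MvPolynomial.isHomogeneous_X _ _).mul (MvPolynomial.isHomogeneous_X _ _)) t) ?_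
  intro F hF
  have hFh : F.1.IsHomogeneous t := (MvPolynomial.mem_homogeneousSubmodule _ _).mp F.2
  refine (van_φr D hFh).mpr ?_
  have h5 : ∀ (c' : Fin 2) (y : Yset), (fun b : J × SY => MvPolynomial.eval y.1.rep
      (MvPolynomial.X (c', b.1) * MvPolynomial.X b.2 : MvPolynomial SY ℂ)) =
      sP y c' • segre (rP y) y.1.rep := by
    intro c' y
    funext b
    rw [map_mul, MvPolynomial.eval_X, MvPolynomial.eval_X]
    have := congrFun (rep_sr y) (c', b.1)
    rw [this]
    simp only [segre, Pi.smul_apply, smul_eq_mul]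
    ring
  have h2 : ∀ y : Yset, y.1 ∈ D →
      sP y c ^ t * MvPolynomial.eval (segre (rP y) y.1.rep) F.1 = 0 := by
    intro y hy
    have this0 := hF y.1 hy
    have := (substMap_eval (fun q : J × SY => (MvPolynomial.X (c, q.1) * MvPolynomial.X q.2 :
      MvPolynomial SY ℂ)) (1 + 1) (fun q => (MvPolynomial.isHomogeneous_X _ _).mul
        (MvPolynomial.isHomogeneous_X _ _)) t F y.1.rep).symm.trans this0
    rw [h5, hom_eval hFh] at this
    exact this
  have hsub : D ⊆ {q : PS SY | ∀ j : J, MvPolynomial.eval q.rep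
        (MvPolynomial.X (c, j) : MvPolynomial SY ℂ) = 0} ∪
      {q : PS SY | ∀ c' : Fin 2, MvPolynomial.eval q.rep (MvPolynomial.aeval
        (fun b : J × SY => (MvPolynomial.X (c', b.1) * MvPolynomial.X b.2 :
          MvPolynomial SY ℂ)) F.1) = 0} := by
    intro q hq
    have h3 := h2 ⟨q, hDY hq⟩ hq
    rcases mul_eq_zero.mp h3 with h | h
    · left
      intro j
      have h4 := eq_zero_of_pow_eq_zero h
      rw [MvPolynomial.eval_X]
      have := congrFun (rep_sr ⟨q, hDY hq⟩) (c, j)
      rw [this]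
      simp only [segre, h4, zero_mul]
    · right
      intro c'
      rw [eval_aeval', h5 c' ⟨q, hDY hq⟩, hom_eval hFh]
      exact mul_eq_zero_of_right _ h
  rcases hD.2.2 _ _ (isZClosed_family _ fun k => ⟨1, MvPolynomial.isHomogeneous_X _ _⟩)
    (isZClosed_family _ fun k => ⟨_, hFh.aeval _ fun b =>
      (MvPolynomial.isHomogeneous_X _ _).mul (MvPolynomial.isHomogeneous_X _ _)⟩) hsub with h | h
  · exfalso
    have h6 := h hp
    obtain ⟨j, hj⟩ := Function.ne_iff.mp (rP_ne ⟨p, hDY hp⟩)
    have h7 := h6 j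
    rw [MvPolynomial.eval_X] at h7
    have := congrFun (rep_sr ⟨p, hDY hp⟩) (c, j)
    rw [this] at h7
    simp only [segre] at h7
    exact mul_ne_zero hc hj h7
  · intro y hy
    obtain ⟨c', hc'⟩ := Function.ne_iff.mp (sP_ne y)
    have h8 := h hy c'
    rw [eval_aeval', h5 c' y] at h8
    exact (eval_smul_iff hFh hc' _).mp h8

/-- on subsets of `C`, the Hilbert function for `O(2, 1)` is at most that for `O(2, 2)` -/
theorem hilb_s_le_C (t : ℕ) : hilb (φs.image Cset) t ≤ hilb Cset (2 * t) := by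
  have hfin := finite_forms SY (2 * t)
  refine quot_le (V := MvPolynomial.homogeneousSubmodule (Fin 2 × SY) ℂ t)
    (W := MvPolynomial.homogeneousSubmodule SY ℂ (2 * t)) (vanForms (φs.image Cset) t)
    (vanForms Cset (2 * t))
    (substMap (fun q : Fin 2 × SY => MvPolynomial.X (q.1, none) * MvPolynomial.X q.2) (1 + 1)
      (fun q => (MvPolynomial.isHomogeneous_X _ _).mul (MvPolynomial.isHomogeneous_X _ _)) t) ?_
  intro F hF
  have hFh : F.1.IsHomogeneous t := (MvPolynomial.mem_homogeneousSubmodule _ _).mp F.2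
  refine (van_φs Cset hFh).mpr ?_
  intro y hy
  have h0 := hF y.1 hy
  have h1 := (substMap_eval (fun q : Fin 2 × SY => (MvPolynomial.X (q.1, none) *
    MvPolynomial.X q.2 : MvPolynomial SY ℂ)) (1 + 1) (fun q =>
      (MvPolynomial.isHomogeneous_X _ _).mul (MvPolynomial.isHomogeneous_X _ _)) t F
        y.1.rep).symm.trans h0
  have h5 : (fun b : Fin 2 × SY => MvPolynomial.eval y.1.rep
      (MvPolynomial.X (b.1, none) * MvPolynomial.X b.2 : MvPolynomial SY ℂ)) =
      rP y none • segre (sP y) y.1.rep := by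
    funext b
    rw [map_mul, MvPolynomial.eval_X, MvPolynomial.eval_X]
    have := congrFun (rep_sr y) (b.1, none)
    rw [this]
    simp only [segre, Pi.smul_apply, smul_eq_mul]
    ring
  rw [h5] at h1
  have hne : rP y none ≠ 0 := by
    have hv := (mem_C_iff (rep_P y)).mp hy
    intro h0
    apply rP_ne y
    funext j
    rcases j with _ | ⟨i, e⟩
    · exact h0
    · simp only [rP, rVec, hv, Pi.zero_apply, mul_zero]
  exact (eval_smul_iff hFh hne _).mp h1

end Pool.Agent.H286R4
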