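import Mathlib
import Pool.Agent.H286R4.LefRho

/-!
The dimensions of `Y` and `C`, and the two degrees of `C`.
-/

namespace Pool.Agent.H286R4

open Module Filter Topology

/-- the affine chart `s = (1, u)` -/
def s1 (u : ℂ) : Fin 2 → ℂ := fun c => if c = 0 then 1 else u

@[simp] theorem s1_zero (u : ℂ) : s1 u 0 = 1 := rfl

@[simp] theorem s1_one (u : ℂ) : s1 u 1 = u := rfl

/-- the affine chart of `s` as polynomials -/
noncomputable def S1 {m : ℕ} (j : Fin m) (c : Fin 2) : MvPolynomial (Fin m) ℂ :=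
  if c = 0 then 1 else MvPolynomial.X j

theorem S1_eval {m : ℕ} (j : Fin m) (c : Fin 2) (u : Fin m → ℂ) :
    MvPolynomial.eval u (S1 j c) = s1 (u j) c := by
  unfold S1 s1
  split_ifs <;> simp

theorem S1_deg {m : ℕ} (j : Fin m) (c : Fin 2) : (S1 j c).totalDegree ≤ 1 := by
  unfold S1
  split_ifs
  · rw [MvPolynomial.totalDegree_one]; exact zero_le_one
  · rw [MvPolynomial.totalDegree_X]

/-- the affine chart of `Y` as polynomials -/
noncomputable def Γ4 : SY → MvPolynomial (Fin 4) ℂ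
  | (c, none) => S1 0 c
  | (c, some (i, e)) => S1 0 c * (S1 0 e * MvPolynomial.X i.succ)

theorem Γ4_eval (u : Fin 4 → ℂ) : (fun a => MvPolynomial.eval u (Γ4 a)) =
    xVec (s1 (u 0)) (fun i => u i.succ) 1 := by
  funext ⟨c, j⟩
  rcases j with _ | ⟨i, e⟩ <;> simp [Γ4, xVec, segre, rVec, S1_eval]

theorem Γ4_deg (a : SY) : (Γ4 a).totalDegree ≤ 3 := by
  obtain ⟨c, j⟩ := a
  rcases j with _ | ⟨i, e⟩
  · exact (S1_deg _ _).trans (by norm_num)
  · refine (MvPolynomial.totalDegree_mul _ _).trans ?_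
    have h1 := S1_deg (m := 4) 0 c
    have h2 := (MvPolynomial.totalDegree_mul (S1 (m := 4) 0 e) (MvPolynomial.X i.succ))
    have h3 := S1_deg (m := 4) 0 e
    rw [MvPolynomial.totalDegree_X] at h2
    omega

theorem xVec_chart (s : Fin 2 → ℂ) (v : Fin 3 → ℂ) (z : ℂ) (hs : s 0 ≠ 0) (hz : z ≠ 0) :
    xVec s v z = (s 0 * z) • xVec (s1 (s 1 / s 0)) (fun i => v i * s 0 / z) 1 := by
  have h : ∀ c : Fin 2, s1 (s 1 / s 0) c = s c / s 0 := by
    intro c
    fin_cases c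
    · simp [s1, div_self hs]
    · simp [s1]
  funext ⟨c, j⟩
  rcases j with _ | ⟨i, e⟩
  · simp only [xVec, segre, rVec, Pi.smul_apply, smul_eq_mul, h]
    field_simp
  · simp only [xVec, segre, rVec, Pi.smul_apply, smul_eq_mul, h]
    field_simp

theorem Y_upper (t : ℕ) : hilb Yset t ≤ (3 * t + 1) ^ 4 := by
  refine hilb_upper Γ4 3 Γ4_deg Yset t ?_
  rintro F hF h p ⟨s, v, z, hp⟩
  have h1 := dense_vanish ΓY F (MvPolynomial.X (Sum.inl 0) * MvPolynomial.X (Sum.inr none))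
    (mul_ne_zero (MvPolynomial.X_ne_zero _) (MvPolynomial.X_ne_zero _)) (by
      intro u hu
      rw [map_mul, MvPolynomial.eval_X, MvPolynomial.eval_X] at hu
      rw [ΓY_eval, xVec_chart _ _ _ (left_ne_zero_of_mul hu) (right_ne_zero_of_mul hu),
        hom_eval hF]
      have h2 := h (Fin.cons (u (Sum.inl 1) / u (Sum.inl 0))
        (fun i => u (Sum.inr (some i)) * u (Sum.inl 0) / u (Sum.inr none)))
      rw [Γ4_eval] at h2
      simp only [Fin.cons_zero, Fin.cons_succ] at h2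
      rw [h2, mul_zero])
  obtain ⟨u, hu⟩ := exists_u s v z
  have h3 := h1 u
  rw [hu, ← hp] at h3
  exact h3

theorem van_of_Y {F : MvPolynomial SY ℂ} {t : ℕ} (hF : F.IsHomogeneous t)
    (h : ∀ p ∈ Yset, MvPolynomial.eval p.rep F = 0) {s v z} (hne : xVec s v z ≠ 0) :
    MvPolynomial.eval (xVec s v z) F = 0 :=
  (eval_rep_mk hF _ hne).mp (h _ (mk_mem_Y s v z hne))

theorem van_of_C {F : MvPolynomial SY ℂ} {t : ℕ} (hF : F.IsHomogeneous t)
    (h : ∀ p ∈ Cset, MvPolynomial.eval p.rep F = 0) {s} (hne : xVec s 0 1 ≠ 0) :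
    MvPolynomial.eval (xVec s 0 1) F = 0 :=
  (eval_rep_mk hF _ hne).mp (h _ (mk_mem_C s hne))

theorem chart_ne (u : ℂ) (v : Fin 3 → ℂ) : xVec (s1 u) v 1 ≠ 0 := by
  intro h
  have := congrFun h (0, none)
  simp [xVec, segre, rVec] at this

theorem Y_lower (t : ℕ) : (t / 4 + 1) ^ 4 ≤ hilb Yset t := by
  have key := hilb_lower (m := 4) Yset t (Fin 4 → Fin (t / 4 + 1))
    (fun k => MvPolynomial.X (0, none) ^ (t - ∑ j, (k j : ℕ)) *
      (MvPolynomial.X (1, none) ^ (k 0 : ℕ) *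
        ∏ i : Fin 3, MvPolynomial.X (0, some (i, 0)) ^ (k i.succ : ℕ)))
    (fun k => by
      have h1 : ∑ j, (k j : ℕ) ≤ t := by
        calc ∑ j, (k j : ℕ) ≤ ∑ _j : Fin 4, t / 4 :=
              Finset.sum_le_sum fun j _ => Nat.lt_succ_iff.mp (k j).2
          _ = 4 * (t / 4) := by simp
          _ ≤ t := Nat.mul_div_le t 4
      have h2' : ∑ j, (k j : ℕ) = (k 0 : ℕ) + ∑ i : Fin 3, (k i.succ : ℕ) :=
        Fin.sum_univ_succ _
      have h2 : t = (t - ∑ j, (k j : ℕ)) + ((k 0 : ℕ) + ∑ i : Fin 3, (k i.succ : ℕ)) := by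
        omega
      have h3 := (MvPolynomial.isHomogeneous_X_pow (R := ℂ) ((0, none) : SY)
        (t - ∑ j, (k j : ℕ))).mul ((MvPolynomial.isHomogeneous_X_pow (R := ℂ) ((1, none) : SY)
          (k 0 : ℕ)).mul (MvPolynomial.IsHomogeneous.prod Finset.univ
            (fun i : Fin 3 => (MvPolynomial.X ((0, some (i, 0)) : SY) : MvPolynomial SY ℂ) ^
              (k i.succ : ℕ)) (fun i => (k i.succ : ℕ))
              (fun i _ => MvPolynomial.isHomogeneous_X_pow _ _)))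
      rw [← h2] at h3
      exact h3)
    (fun u => xVec (s1 (u 0)) (fun i => u i.succ) 1) (fun k j => (k j : ℕ))
    (fun k k' h => by
      funext j
      exact Fin.ext (congrFun h j))
    (fun k u => by
      rw [map_mul, map_mul, map_pow, map_pow, map_prod, MvPolynomial.eval_X,
        MvPolynomial.eval_X, Fin.prod_univ_succ (fun j => u j ^ (k j : ℕ))]
      simp [xVec, segre, rVec])
    (fun F hF h u => van_of_Y hF h (chart_ne _ _))
  rwa [Fintype.card_fun, Fintype.card_fin, Fintype.card_fin] at key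

theorem Y_dim : HasDim Yset 4 := by
  refine hasDim_of_bounds Yset 4 (1 / 256) 256 (by norm_num) ?_ ?_
  · intro t _
    have h1 : ((t / 4 + 1 : ℕ) : ℝ) ^ 4 ≤ hilb Yset t := by exact_mod_cast Y_lower t
    have h2 : (t : ℝ) / 4 ≤ ((t / 4 + 1 : ℕ) : ℝ) := by
      rw [div_le_iff₀ (by norm_num)]
      have : t ≤ (t / 4 + 1) * 4 := by omega
      exact_mod_cast this
    calc 1 / 256 * (t : ℝ) ^ 4 = ((t : ℝ) / 4) ^ 4 := by ring
      _ ≤ ((t / 4 + 1 : ℕ) : ℝ) ^ 4 := pow_le_pow_left₀ (by positivity) h2 4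
      _ ≤ _ := h1
  · intro t ht
    have h1 : (hilb Yset t : ℝ) ≤ ((3 * t + 1 : ℕ) : ℝ) ^ 4 := by exact_mod_cast Y_upper t
    have h2 : ((3 * t + 1 : ℕ) : ℝ) ≤ 4 * t := by
      have : 3 * t + 1 ≤ 4 * t := by omega
      exact_mod_cast this
    calc (hilb Yset t : ℝ) ≤ ((3 * t + 1 : ℕ) : ℝ) ^ 4 := h1
      _ ≤ (4 * (t : ℝ)) ^ 4 := pow_le_pow_left₀ (by positivity) h2 4
      _ = 256 * (t : ℝ) ^ 4 := by ring

/-- the affine chart of `C` as polynomials -/
noncomputable def Γ1 : SY → MvPolynomial (Fin 1) ℂ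
  | (c, none) => S1 0 c
  | (_, some _) => 0

theorem Γ1_eval (u : Fin 1 → ℂ) : (fun a => MvPolynomial.eval u (Γ1 a)) =
    xVec (s1 (u 0)) 0 1 := by
  funext ⟨c, j⟩
  rcases j with _ | ⟨i, e⟩ <;> simp [Γ1, xVec, segre, rVec, S1_eval]

theorem Γ1_deg (a : SY) : (Γ1 a).totalDegree ≤ 1 := by
  obtain ⟨c, j⟩ := a
  rcases j with _ | ⟨i, e⟩
  · exact S1_deg _ _
  · exact (MvPolynomial.totalDegree_zero).le.trans zero_le_one

theorem chart_C (s : Fin 2 → ℂ) (hs : s 0 ≠ 0) : s = s 0 • s1 (s 1 / s 0) := by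
  funext c
  fin_cases c
  · simp
  · simp only [Fin.mk_one, Pi.smul_apply, s1_one, smul_eq_mul]
    field_simp

theorem C_upper (t : ℕ) : hilb Cset t ≤ t + 1 := by
  have key := hilb_upper Γ1 1 Γ1_deg Cset t (by
    rintro F hF h p ⟨s, hp⟩
    have h1 := dense_vanish ΓC F (MvPolynomial.X 0) (MvPolynomial.X_ne_zero _) (by
      intro u hu
      rw [MvPolynomial.eval_X] at hu
      have h2 := h (fun _ => u 1 / u 0)
      rw [Γ1_eval] at h2
      rw [ΓC_eval]
      have h3 : xVec u 0 1 = u 0 • xVec (s1 (u 1 / u 0)) 0 1 := by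
        rw [xVec_smul, smul_zero, mul_one, xVec_zero (s1 _) (u 0), ← chart_C u hu]
      rw [h3, hom_eval hF, h2, mul_zero])
    have h4 := h1 s
    rw [ΓC_eval, ← hp] at h4
    exact h4)
  rwa [pow_one, one_mul] at key

theorem C_lower (t : ℕ) : t + 1 ≤ hilb Cset t := by
  have key := hilb_lower (m := 1) Cset t (Fin (t + 1))
    (fun k => MvPolynomial.X (0, none) ^ (t - (k : ℕ)) * MvPolynomial.X (1, none) ^ (k : ℕ))
    (fun k => by
      have h3 := (MvPolynomial.isHomogeneous_X_pow (R := ℂ) ((0, none) : SY)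
        (t - (k : ℕ))).mul (MvPolynomial.isHomogeneous_X_pow (R := ℂ) ((1, none) : SY) (k : ℕ))
      rwa [Nat.sub_add_cancel (Nat.lt_succ_iff.mp k.2)] at h3)
    (fun u => xVec (s1 (u 0)) 0 1) (fun k _ => (k : ℕ))
    (fun k k' h => Fin.ext (congrFun h 0))
    (fun k u => by
      rw [map_mul, map_pow, map_pow, MvPolynomial.eval_X, MvPolynomial.eval_X]
      simp [xVec, segre, rVec])
    (fun F hF h u => van_of_C hF h (chart_ne _ _))
  rwa [Fintype.card_fin] at key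

theorem C_dim : HasDim Cset 1 := by
  refine hasDim_of_bounds Cset 1 1 2 one_pos ?_ ?_
  · intro t _
    have : ((t + 1 : ℕ) : ℝ) ≤ hilb Cset t := by exact_mod_cast C_lower t
    push_cast at this
    rw [pow_one]
    linarith
  · intro t ht
    have h1 : (hilb Cset t : ℝ) ≤ ((t + 1 : ℕ) : ℝ) := by exact_mod_cast C_upper t
    have h2 : (1 : ℝ) ≤ t := by exact_mod_cast ht
    push_cast at h1
    rw [pow_one]
    linarith

theorem C_curve : IsCurve Cset := ⟨C_variety, C_dim⟩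

/-- points of `Y` on `C` -/
theorem param_C {y : Yset} (hy : y.1 ∈ Cset) : vP y = 0 := (mem_C_iff (rep_P y)).mp hy

theorem rP_C {y : Yset} (hy : y.1 ∈ Cset) : rP y = rVec (sP y) 0 (zP y) := by
  rw [rP, param_C hy]

/-- the affine chart of the image of `C` under `O(1, 2)` -/
noncomputable def Γr : J × SY → MvPolynomial (Fin 1) ℂ
  | (none, (c, none)) => S1 0 c
  | (none, (_, some _)) => 0
  | (some _, _) => 0

theorem Γr_eval (u : Fin 1 → ℂ) : (fun a => MvPolynomial.eval u (Γr a)) =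
    segre (rVec 0 0 1) (xVec (s1 (u 0)) 0 1) := by
  funext ⟨j', c, j⟩
  rcases j' with _ | ⟨i', e'⟩ <;> rcases j with _ | ⟨i, e⟩ <;>
    simp [Γr, xVec, segre, rVec, S1_eval]

theorem Γr_deg (a : J × SY) : (Γr a).totalDegree ≤ 1 := by
  obtain ⟨j', c, j⟩ := a
  rcases j' with _ | ⟨i', e'⟩
  · rcases j with _ | ⟨i, e⟩
    · exact S1_deg _ _
    · exact (MvPolynomial.totalDegree_zero).le.trans zero_le_one
  · exact (MvPolynomial.totalDegree_zero).le.trans zero_le_one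

/-- the polynomials parametrising the image of `C` under `O(1, 2)` -/
noncomputable def Γr2 : J × SY → MvPolynomial (Fin 2) ℂ
  | (none, (c, none)) => MvPolynomial.X c
  | (none, (_, some _)) => 0
  | (some _, _) => 0

theorem Γr2_eval (u : Fin 2 → ℂ) : (fun a => MvPolynomial.eval u (Γr2 a)) =
    segre (rVec 0 0 1) (xVec u 0 1) := by
  funext ⟨j', c, j⟩
  rcases j' with _ | ⟨i', e'⟩ <;> rcases j with _ | ⟨i, e⟩ <;>
    simp [Γr2, xVec, segre, rVec]

theorem Cr_key {F : MvPolynomial (J × SY) ℂ} {t : ℕ} (hF : F.IsHomogeneous t)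
    (h : ∀ u : Fin 1 → ℂ, MvPolynomial.eval (fun a => MvPolynomial.eval u (Γr a)) F = 0)
    (y : Yset) (hy : y.1 ∈ Cset) : MvPolynomial.eval (segre (rP y) y.1.rep) F = 0 := by
  have h1 := dense_vanish Γr2 F (MvPolynomial.X 0) (MvPolynomial.X_ne_zero _) (by
    intro u hu
    rw [MvPolynomial.eval_X] at hu
    have h2 := h (fun _ => u 1 / u 0)
    rw [Γr_eval] at h2
    rw [Γr2_eval]
    have h3 : segre (rVec 0 0 1) (xVec u 0 1) =
        u 0 • segre (rVec 0 0 1) (xVec (s1 (u 1 / u 0)) 0 1) := by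
      have h4 : xVec u 0 1 = u 0 • xVec (s1 (u 1 / u 0)) 0 1 := by
        rw [xVec_smul, smul_zero, mul_one, xVec_zero (s1 _) (u 0), ← chart_C u hu]
      rw [h4]
      funext q
      simp only [segre, Pi.smul_apply, smul_eq_mul]
      ring
    rw [h3, hom_eval hF, h2, mul_zero])
  have h5 := h1 (sP y)
  rw [Γr2_eval] at h5
  have h6 : segre (rP y) y.1.rep =
      (zP y * zP y) • segre (rVec 0 0 1) (xVec (sP y) 0 1) := by
    rw [rP_C hy, rep_P y, param_C hy]
    funext ⟨j', c, j⟩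
    rcases j' with _ | ⟨i', e'⟩ <;> rcases j with _ | ⟨i, e⟩ <;>
      simp [xVec, segre, rVec]
    ring
  rw [h6, hom_eval hF, h5, mul_zero]

theorem Cr_upper (t : ℕ) : hilb (φr.image Cset) t ≤ t + 1 := by
  have : Finite φr.τ := inferInstanceAs (Finite (J × SY))
  have key := hilb_upper (σ := φr.τ) Γr 1 Γr_deg (φr.image Cset) t
    (fun F hF h => (van_φr Cset hF).mpr fun y hy => Cr_key hF h y hy)
  rwa [pow_one, one_mul] at key

/-- the monomials used for the lower bound -/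
noncomputable def Ms (t k : ℕ) : MvPolynomial (Fin 2 × SY) ℂ :=
  MvPolynomial.X ((0, (0, none)) : Fin 2 × SY) ^ (t - k / 2 - k % 2) *
    (MvPolynomial.X ((0, (1, none)) : Fin 2 × SY) ^ (k % 2) *
      MvPolynomial.X ((1, (1, none)) : Fin 2 × SY) ^ (k / 2))

theorem Ms_hom (t k : ℕ) (hk : k < 2 * t + 1) : (Ms t k).IsHomogeneous t := by
  have h3 := (MvPolynomial.isHomogeneous_X_pow (R := ℂ) ((0, (0, none)) : Fin 2 × SY)
    (t - k / 2 - k % 2)).mul
    ((MvPolynomial.isHomogeneous_X_pow (R := ℂ) ((0, (1, none)) : Fin 2 × SY)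
      (k % 2)).mul
      (MvPolynomial.isHomogeneous_X_pow (R := ℂ) ((1, (1, none)) : Fin 2 × SY)
        (k / 2)))
  have h4 : (t - k / 2 - k % 2) + (k % 2 + k / 2) = t := by omega
  rw [h4] at h3
  exact h3

theorem Ms_eval (t k : ℕ) (u : Fin 1 → ℂ) :
    MvPolynomial.eval (segre (s1 (u 0)) (xVec (s1 (u 0)) 0 1)) (Ms t k) = ∏ j, u j ^ k := by
  rw [Ms, map_mul, map_mul, map_pow, map_pow, map_pow, MvPolynomial.eval_X,
    MvPolynomial.eval_X, MvPolynomial.eval_X]
  have h5 : k = k % 2 + 2 * (k / 2) := (Nat.mod_add_div _ _).symm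
  simp only [Finset.univ_unique, Fin.default_eq_zero, Finset.prod_singleton]
  conv_rhs => rw [h5, pow_add, pow_mul]
  simp [xVec, segre, rVec, pow_two]

theorem Cs_key {F : MvPolynomial (Fin 2 × SY) ℂ} {t : ℕ} (hF : F.IsHomogeneous t)
    (h : ∀ y : Yset, y.1 ∈ Cset → MvPolynomial.eval (segre (sP y) y.1.rep) F = 0)
    (u : Fin 1 → ℂ) : MvPolynomial.eval (segre (s1 (u 0)) (xVec (s1 (u 0)) 0 1)) F = 0 := by
  have hyC := mk_mem_C _ (chart_ne (u 0) 0)
  obtain ⟨y, hy⟩ : ∃ y : Yset, y.1 = Projectivization.mk ℂ _ (chart_ne (u 0) 0) :=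
    ⟨⟨_, C_subset_Y hyC⟩, rfl⟩
  rw [← hy] at hyC
  have h2 := h y hyC
  obtain ⟨c, hc, h3⟩ := rep_eq_of (chart_ne (u 0) 0) hy
  have h4 : ∀ e, sP y e * zP y = c * s1 (u 0) e := by
    intro e
    have := congrFun ((rep_P y).symm.trans h3) (e, none)
    simpa [xVec, segre, rVec] using this
  have hz : zP y ≠ 0 := by
    intro h0
    have := h4 0
    rw [h0, mul_zero, s1_zero, mul_one] at this
    exact hc this.symm
  have h5 : sP y = (c / zP y) • s1 (u 0) := by
    funext e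
    rw [Pi.smul_apply, smul_eq_mul, div_mul_eq_mul_div, eq_div_iff hz, h4]
  have h6 : segre (sP y) y.1.rep =
      (c / zP y * c) • segre (s1 (u 0)) (xVec (s1 (u 0)) 0 1) := by
    rw [h5, h3]
    funext q
    simp only [segre, Pi.smul_apply, smul_eq_mul]
    ring
  rw [h6] at h2
  exact (eval_smul_iff hF (mul_ne_zero (div_ne_zero hc hz) hc) _).mp h2

theorem Cs_lower (t : ℕ) : 2 * t + 1 ≤ hilb (φs.image Cset) t := by
  have : Finite φs.τ := inferInstanceAs (Finite (Fin 2 × SY))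
  have key := hilb_lower (σ := φs.τ) (m := 1) (φs.image Cset) t (Fin (2 * t + 1))
    (fun k => Ms t k) (fun k => Ms_hom t k k.2)
    (fun u => segre (s1 (u 0)) (xVec (s1 (u 0)) 0 1)) (fun k _ => (k : ℕ))
    (fun k k' h => Fin.ext (congrFun h 0))
    (fun k u => Ms_eval t k u)
    (fun F hF h u => Cs_key hF ((van_φs Cset hF).mp h) u)
  rwa [Fintype.card_fin] at key

end Pool.Agent.H286R4
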