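import Mathlib
import Pool.Agent.H286R4.LefDim

/-!
`Y` is smooth.
-/

namespace Pool.Agent.H286R4

open Module Filter Topology

/-- chain rule for a polynomial along a curve -/
theorem chain_rule {σ : Type} [Fintype σ] (f : MvPolynomial σ ℂ) (γ : ℂ → σ → ℂ) (γ' : σ → ℂ)
    (t : ℂ) (h : ∀ i, HasDerivAt (fun s => γ s i) (γ' i) t) :
    HasDerivAt (fun s => MvPolynomial.eval (γ s) f)
      (∑ i, MvPolynomial.eval (γ t) (MvPolynomial.pderiv i f) * γ' i) t := by
  classical
  induction f using MvPolynomial.induction_on with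
  | C a =>
    simp only [MvPolynomial.eval_C, MvPolynomial.pderiv_C, map_zero, zero_mul,
      Finset.sum_const_zero]
    exact hasDerivAt_const t a
  | add p q hp hq =>
    simp only [map_add, add_mul, Finset.sum_add_distrib]
    exact hp.add hq
  | mul_X p j hp =>
    have h1 := hp.mul (h j)
    simp only [map_mul, MvPolynomial.eval_X]
    refine h1.congr_deriv ?_
    simp only [Derivation.leibniz, smul_eq_mul, map_add, map_mul, MvPolynomial.eval_X, add_mul,
      Finset.sum_add_distrib, MvPolynomial.pderiv_X]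
    have h2 : ∑ i, MvPolynomial.eval (γ t) p *
        MvPolynomial.eval (γ t) ((Pi.single i 1 : σ → MvPolynomial σ ℂ) j) * γ' i =
        MvPolynomial.eval (γ t) p * γ' j := by
      rw [Finset.sum_eq_single j]
      · simp
      · intro i _ hi
        rw [Pi.single_eq_of_ne (fun h => hi h.symm)]
        simp
      · intro h; exact absurd (Finset.mem_univ j) h
    rw [h2, add_comm, Finset.sum_mul]
    congr 1
    exact Finset.sum_congr rfl fun i _ => by ring

/-- the differential of the parametrisation -/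
def dVec (s : Fin 2 → ℂ) (v : Fin 3 → ℂ) (z : ℂ) (ds : Fin 2 → ℂ) (dv : Fin 3 → ℂ) (dz : ℂ) :
    SY → ℂ
  | (c, none) => ds c * z + s c * dz
  | (c, some (i, e)) => ds c * (s e * v i) + s c * (ds e * v i + s e * dv i)

/-- the differential of the parametrisation as a linear map -/
def dMap (s : Fin 2 → ℂ) (v : Fin 3 → ℂ) (z : ℂ) :
    ((Fin 2 → ℂ) × (Fin 3 → ℂ) × ℂ) →ₗ[ℂ] (SY → ℂ) where
  toFun w := dVec s v z w.1 w.2.1 w.2.2
  map_add' := by
    rintro ⟨a, b, c⟩ ⟨a', b', c'⟩
    funext ⟨k, j⟩
    rcases j with _ | ⟨i, e⟩ <;> simp only [dVec, Prod.mk_add_mk, Pi.add_apply] <;> ring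
  map_smul' := by
    rintro r ⟨a, b, c⟩
    funext ⟨k, j⟩
    rcases j with _ | ⟨i, e⟩ <;>
      simp only [dVec, Prod.smul_mk, Pi.smul_apply, smul_eq_mul, RingHom.id_apply] <;> ring

theorem Y_van_all {f : MvPolynomial SY ℂ} {k : ℕ} (hf : f.IsHomogeneous k)
    (h : ∀ p ∈ Yset, MvPolynomial.eval p.rep f = 0) (s v z) :
    MvPolynomial.eval (xVec s v z) f = 0 := by
  have h1 := dense_vanish ΓY f (MvPolynomial.X (Sum.inl 0) * MvPolynomial.X (Sum.inr none))
    (mul_ne_zero (MvPolynomial.X_ne_zero _) (MvPolynomial.X_ne_zero _)) (by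
      intro u hu
      rw [map_mul, MvPolynomial.eval_X, MvPolynomial.eval_X] at hu
      rw [ΓY_eval]
      refine van_of_Y hf h fun h0 => hu ?_
      exact congrFun h0 (0, none))
  obtain ⟨u, hu⟩ := exists_u s v z
  have h2 := h1 u
  rwa [hu] at h2

theorem range_le_tangent (s : Fin 2 → ℂ) (v : Fin 3 → ℂ) (z : ℂ) :
    LinearMap.range (dMap s v z) ≤ coneTangent Yset (xVec s v z) := by
  rintro _ ⟨⟨ds, dv, dz⟩, rfl⟩ k f hf hfY
  have h1 := chain_rule f (fun τ => xVec (s + τ • ds) (v + τ • dv) (z + τ * dz))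
    (dVec s v z ds dv dz) 0 (by
      have hl : ∀ a b : ℂ, HasDerivAt (fun τ : ℂ => a + τ * b) b 0 := by
        intro a b
        have := ((hasDerivAt_id (0 : ℂ)).mul_const b).const_add a
        simpa using this
      rintro ⟨c, j⟩
      rcases j with _ | ⟨i, e⟩
      · have := (hl (s c) (ds c)).mul (hl z dz)
        refine (this.congr_deriv ?_)
        simp [dVec]
      · have := (hl (s c) (ds c)).mul ((hl (s e) (ds e)).mul (hl (v i) (dv i)))
        refine (this.congr_deriv ?_)
        simp [dVec])
  have h2 : (fun τ : ℂ => MvPolynomial.eval (xVec (s + τ • ds) (v + τ • dv) (z + τ * dz)) f) =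
      fun _ => 0 := by
    funext τ
    exact Y_van_all hf hfY _ _ _
  rw [h2] at h1
  have h3 := h1.unique (hasDerivAt_const (0 : ℂ) (0 : ℂ))
  simp only [zero_smul, add_zero, zero_mul] at h3
  exact h3

/-- differential of a quadratic minor -/
theorem minor_tangent {x w : SY → ℂ} (hw : w ∈ coneTangent Yset x) (i a i' a') :
    x (i, a) * w (i', a') + w (i, a) * x (i', a') =
      x (i, a') * w (i', a) + w (i, a') * x (i', a) := by
  classical
  have h1 := hw 2 (MvPolynomial.X (i, a) * MvPolynomial.X (i', a') -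
      MvPolynomial.X (i, a') * MvPolynomial.X (i', a))
    (((MvPolynomial.isHomogeneous_X _ _).mul (MvPolynomial.isHomogeneous_X _ _)).sub
      ((MvPolynomial.isHomogeneous_X _ _).mul (MvPolynomial.isHomogeneous_X _ _))) (by
    rintro q ⟨s, v, z, hq⟩
    simp only [map_sub, map_mul, MvPolynomial.eval_X]
    rw [hq]
    simp only [xVec, segre]
    ring)
  have h2 : HasDerivAt (fun τ : ℂ => MvPolynomial.eval (x + τ • w)
      (MvPolynomial.X (i, a) * MvPolynomial.X (i', a') -
      MvPolynomial.X (i, a') * MvPolynomial.X (i', a) : MvPolynomial SY ℂ)) _ 0 :=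
    chain_rule _ (fun τ => x + τ • w) w 0 (by
      intro b
      have := ((hasDerivAt_id (0 : ℂ)).mul_const (w b)).const_add (x b)
      simpa using this)
  simp only [zero_smul, add_zero] at h2
  rw [h1] at h2
  have hl : ∀ b : SY, HasDerivAt (fun τ : ℂ => x b + τ * w b) (w b) 0 := by
    intro b
    have := ((hasDerivAt_id (0 : ℂ)).mul_const (w b)).const_add (x b)
    simpa using this
  have h3 := ((hl (i, a)).mul (hl (i', a'))).sub ((hl (i, a')).mul (hl (i', a)))
  have h4 : (fun τ : ℂ => MvPolynomial.eval (x + τ • w)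
      (MvPolynomial.X (i, a) * MvPolynomial.X (i', a') -
      MvPolynomial.X (i, a') * MvPolynomial.X (i', a) : MvPolynomial SY ℂ)) =
      fun τ : ℂ => (x (i, a) + τ * w (i, a)) * (x (i', a') + τ * w (i', a')) -
        (x (i, a') + τ * w (i, a')) * (x (i', a) + τ * w (i', a)) := by
    funext τ
    simp
  rw [h4] at h2
  have h5 := h2.unique h3
  simp only [zero_mul, add_zero] at h5
  linear_combination -h5

/-- differential of a linear equation -/
theorem linear_tangent {x w : SY → ℂ} (hw : w ∈ coneTangent Yset x) (c e i) :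
    w (c, some (i, e)) = w (e, some (i, c)) := by
  classical
  have h1 := hw 1 (MvPolynomial.X (c, some (i, e)) - MvPolynomial.X (e, some (i, c)))
    ((MvPolynomial.isHomogeneous_X _ _).sub (MvPolynomial.isHomogeneous_X _ _)) (by
    rintro q ⟨s, v, z, hq⟩
    rw [map_sub, MvPolynomial.eval_X, MvPolynomial.eval_X, hq]
    simp only [xVec, segre, rVec]
    ring)
  have h2 : HasDerivAt (fun τ : ℂ => MvPolynomial.eval (x + τ • w)
      (MvPolynomial.X (c, some (i, e)) - MvPolynomial.X (e, some (i, c)) :
        MvPolynomial SY ℂ)) _ 0 :=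
    chain_rule _ (fun τ => x + τ • w) w 0 (by
      intro b
      have := ((hasDerivAt_id (0 : ℂ)).mul_const (w b)).const_add (x b)
      simpa using this)
  simp only [zero_smul, add_zero] at h2
  rw [h1] at h2
  have hl : ∀ b : SY, HasDerivAt (fun τ : ℂ => x b + τ * w b) (w b) 0 := by
    intro b
    have := ((hasDerivAt_id (0 : ℂ)).mul_const (w b)).const_add (x b)
    simpa using this
  have h3 := (hl (c, some (i, e))).sub (hl (e, some (i, c)))
  have h4 : (fun τ : ℂ => MvPolynomial.eval (x + τ • w)
      (MvPolynomial.X (c, some (i, e)) - MvPolynomial.X (e, some (i, c)) :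
        MvPolynomial SY ℂ)) =
      fun τ : ℂ => (x (c, some (i, e)) + τ * w (c, some (i, e))) -
        (x (e, some (i, c)) + τ * w (e, some (i, c))) := by
    funext τ
    simp
  rw [h4] at h2
  have h5 := h2.unique h3
  linear_combination -h5

theorem tangent_le_range {s : Fin 2 → ℂ} {v : Fin 3 → ℂ} {z : ℂ} (hx : xVec s v z ≠ 0) :
    coneTangent Yset (xVec s v z) ≤ LinearMap.range (dMap s v z) := by
  intro w hw
  obtain ⟨hs, hr⟩ := xVec_ne hx
  obtain ⟨c₀, hc⟩ := Function.ne_iff.mp hs
  obtain ⟨j₀, hj⟩ := Function.ne_iff.mp hr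
  simp only [Pi.zero_apply] at hc hj
  -- the candidates
  set r := rVec s v z with hrdef
  set ds : Fin 2 → ℂ := fun c => w (c, j₀) / r j₀ - w (c₀, j₀) * s c / (s c₀ * r j₀) with hds
  set dr : J → ℂ := fun j => w (c₀, j) / s c₀ with hdr
  have hds0 : ds c₀ = 0 := by
    rw [hds]
    simp only
    field_simp
    ring
  have key : ∀ c j, w (c, j) = ds c * r j + s c * dr j := by
    intro c j
    have h := minor_tangent hw c₀ j₀ c j
    simp only [xVec, segre, ← hrdef] at h
    rw [hds, hdr]
    simp only
    field_simp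
    linear_combination h
  refine ⟨(ds, fun i => dr (some (i, c₀)) / s c₀, dr none), ?_⟩
  funext ⟨c, j⟩
  change dVec s v z ds (fun i => dr (some (i, c₀)) / s c₀) (dr none) (c, j) = _
  rw [key c j]
  rcases j with _ | ⟨i, e⟩
  · rfl
  · have h := linear_tangent hw c₀ e i
    rw [key, key, hds0] at h
    have hre : ∀ e', r (some (i, e')) = s e' * v i := fun _ => rfl
    rw [hre, hre] at h
    simp only [dVec, hre]
    have h2 : dr (some (i, e)) = ds e * v i + s e * (dr (some (i, c₀)) / s c₀) := by
      field_simp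
      linear_combination h
    rw [h2]

theorem ker_dMap {s : Fin 2 → ℂ} {v : Fin 3 → ℂ} {z : ℂ} (hx : xVec s v z ≠ 0) :
    LinearMap.ker (dMap s v z) =
      Submodule.span ℂ {((s, (-2 : ℂ) • v, -z) : (Fin 2 → ℂ) × (Fin 3 → ℂ) × ℂ)} := by
  obtain ⟨hs, hr⟩ := xVec_ne hx
  obtain ⟨c₀, hc⟩ := Function.ne_iff.mp hs
  obtain ⟨j₀, hj⟩ := Function.ne_iff.mp hr
  simp only [Pi.zero_apply] at hc hj
  apply le_antisymm
  · rintro ⟨ds, dv, dz⟩ hw
    rw [LinearMap.mem_ker] at hw
    have h1 : ∀ c, ds c * z + s c * dz = 0 := fun c => congrFun hw (c, none)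
    have h2 : ∀ c i e, ds c * (s e * v i) + s c * (ds e * v i + s e * dv i) = 0 :=
      fun c i e => congrFun hw (c, some (i, e))
    -- `ds = l • s`
    have h3 : ∀ c, ds c = (ds c₀ / s c₀) * s c := by
      intro c
      rcases j₀ with _ | ⟨i, e⟩
      · have ha := h1 c
        have hb := h1 c₀
        change z ≠ 0 at hj
        field_simp
        have : z * (ds c * s c₀ - ds c₀ * s c) = 0 := by linear_combination s c₀ * ha - s c * hb
        have := (mul_eq_zero.mp this).resolve_left hj
        linear_combination this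
      · have ha := h2 c i e
        have hb := h2 c₀ i e
        change s e * v i ≠ 0 at hj
        field_simp
        have : (s e * v i) * (ds c * s c₀ - ds c₀ * s c) = 0 := by
          linear_combination s c₀ * ha - s c * hb
        have := (mul_eq_zero.mp this).resolve_left hj
        linear_combination this
    rw [Submodule.mem_span_singleton]
    refine ⟨ds c₀ / s c₀, ?_⟩
    refine Prod.ext ?_ (Prod.ext ?_ ?_)
    · funext c
      exact (h3 c).symm
    · funext i
      have := h2 c₀ i c₀
      simp only [Prod.smul_mk, Pi.smul_apply, smul_eq_mul]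
      have h4 : s c₀ * (2 * ds c₀ * v i + s c₀ * dv i) = 0 := by linear_combination this
      have h5 := (mul_eq_zero.mp h4).resolve_left hc
      field_simp
      linear_combination -h5
    · have := h1 c₀
      simp only [Prod.smul_mk, smul_eq_mul]
      field_simp
      linear_combination -this
  · rw [Submodule.span_singleton_le_iff_mem, LinearMap.mem_ker]
    funext ⟨c, j⟩
    rcases j with _ | ⟨i, e⟩
    · change s c * z + s c * (-z) = 0
      ring
    · change s c * (s e * v i) + s c * (s e * v i + s e * ((-2) * v i)) = 0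
      ring

theorem Y_smooth : IsSmoothDim Yset 4 := by
  rintro p ⟨s, v, z, hp⟩
  have hx : xVec s v z ≠ 0 := hp ▸ p.rep_nonzero
  rw [hp, le_antisymm (tangent_le_range hx) (range_le_tangent s v z)]
  have h1 := LinearMap.finrank_range_add_finrank_ker (dMap s v z)
  have h2 : finrank ℂ (LinearMap.ker (dMap s v z)) = 1 := by
    rw [ker_dMap hx]
    refine finrank_span_singleton fun h => ?_
    exact (xVec_ne hx).1 (congrArg Prod.fst h)
  have h3 : finrank ℂ ((Fin 2 → ℂ) × (Fin 3 → ℂ) × ℂ) = 6 := by
    rw [Module.finrank_prod, Module.finrank_prod, Module.finrank_fintype_fun_eq_card,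
      Module.finrank_fintype_fun_eq_card, Module.finrank_self]
    simp
  omega

end Pool.Agent.H286R4
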