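import Mathlib
import Pool.Agent.H286R4.LefSmooth

/-!
The degrees of curves under `O(2, 1)` and `O(1, 2)`, and the failure of the comparison of effective
cones.
-/

namespace Pool.Agent.H286R4

open Module Filter Topology

/-- a curve has Hilbert function of at most linear growth -/
theorem IsCurve.bound {σ : Type} {D : Set (PS σ)} (hD : IsCurve D) :
    ∃ c : ℝ, ∀ᶠ t : ℕ in atTop, (hilb D (2 * t) : ℝ) / t ≤ c := by
  obtain ⟨c, hc⟩ := (hD.2.1).bound
  have h2 : Tendsto (fun t : ℕ => 2 * t) atTop atTop :=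
    tendsto_atTop_mono (fun t => by change t ≤ 2 * t; omega) tendsto_id
  have h3 := h2.eventually hc
  refine ⟨c * 2, ?_⟩
  filter_upwards [h3, eventually_ge_atTop 1] with t ht ht1
  have h4 : (0 : ℝ) < t := by exact_mod_cast ht1
  rw [Real.norm_of_nonneg (Nat.cast_nonneg _), Real.norm_of_nonneg (by positivity), pow_one] at ht
  rw [div_le_iff₀ h4]
  push_cast at ht
  linarith

theorem bdd_below {u : ℕ → ℕ} : IsBoundedUnder (· ≥ ·) atTop fun t : ℕ => (u t : ℝ) / t :=
  ⟨0, by
    rw [eventually_map]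
    exact Eventually.of_forall fun t => div_nonneg (Nat.cast_nonneg _) (Nat.cast_nonneg _)⟩

theorem cobdd {u : ℕ → ℕ} {c : ℝ} (h : ∀ᶠ t : ℕ in atTop, (u t : ℝ) / t ≤ c) :
    IsCoboundedUnder (· ≥ ·) atTop fun t : ℕ => (u t : ℝ) / t :=
  IsBoundedUnder.isCoboundedUnder_ge ⟨c, by rw [eventually_map]; exact h⟩

/-- the main inequality: for a curve `D ⊆ Y` not contained in `C`, the degree of `D` for `O(2, 1)`
is at most the degree for `O(1, 2)` -/
theorem deg_ineq {D : Set (PS SY)} (hD : IsCurve D) (hDY : D ⊆ Yset) (hDC : ¬ D ⊆ Cset) :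
    curveDeg (φs.image D) ≤ curveDeg (φr.image D) := by
  obtain ⟨c, hc⟩ := hD.bound
  refine liminf_le_liminf ?_ bdd_below (cobdd (c := c) ?_)
  · refine Eventually.of_forall fun t => ?_
    refine div_le_div_of_nonneg_right ?_ (Nat.cast_nonneg _)
    exact_mod_cast hilb_s_le_r hD.1 hDY hDC t
  · filter_upwards [hc] with t ht
    refine le_trans (div_le_div_of_nonneg_right ?_ (Nat.cast_nonneg _)) ht
    exact_mod_cast hilb_r_le hD.1 hDY t

theorem Cr_deg : curveDeg (φr.image Cset) ≤ 1 := by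
  have h1 : Tendsto (fun t : ℕ => ((t + 1 : ℕ) : ℝ) / t) atTop (𝓝 1) := by
    have h2 : Tendsto (fun t : ℕ => (1 : ℝ) + 1 / (t : ℝ)) atTop (𝓝 (1 + 0)) :=
      tendsto_const_nhds.add tendsto_one_div_atTop_nhds_zero_nat
    rw [add_zero] at h2
    refine h2.congr' ?_
    filter_upwards [eventually_ge_atTop 1] with t ht
    have h4 : (t : ℝ) ≠ 0 := by positivity
    push_cast
    field_simp
  rw [← h1.liminf_eq]
  refine liminf_le_liminf ?_ bdd_below h1.isCoboundedUnder_ge
  refine Eventually.of_forall fun t => ?_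
  refine div_le_div_of_nonneg_right ?_ (Nat.cast_nonneg _)
  exact_mod_cast Cr_upper t

theorem Cs_deg : 2 ≤ curveDeg (φs.image Cset) := by
  obtain ⟨c, hc⟩ := C_curve.bound
  refine le_liminf_of_le (cobdd (c := c) ?_) ?_
  · filter_upwards [hc] with t ht
    refine le_trans (div_le_div_of_nonneg_right ?_ (Nat.cast_nonneg _)) ht
    exact_mod_cast hilb_s_le_C t
  · filter_upwards [eventually_ge_atTop 1] with t ht
    have h4 : (0 : ℝ) < t := by exact_mod_cast ht
    rw [le_div_iff₀ h4]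
    have h5 : ((2 * t + 1 : ℕ) : ℝ) ≤ hilb (φs.image Cset) t := by exact_mod_cast Cs_lower t
    push_cast at h5
    linarith

/-- a closed set not containing `C` meets `C` in finitely many points -/
theorem finite_inter {X : Set (PS SY)} (hX : IsZClosed X) (hC : ¬ Cset ⊆ X) :
    (Cset ∩ X).Finite := by
  classical
  obtain ⟨p, hp, hpX⟩ := Set.not_subset.mp hC
  obtain ⟨k, G, hG, hGX, hGp⟩ := hX.sep hpX
  -- the restriction of `G` to the affine chart
  let poly : SY → Polynomial ℂ := fun a => match a with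
    | (c, none) => if c = 0 then 1 else Polynomial.X
    | (_, some _) => 0
  have hpoly : ∀ x : ℂ, (fun a => Polynomial.aeval x (poly a)) = xVec (s1 x) 0 1 := by
    intro x
    funext ⟨c, j⟩
    rcases j with _ | ⟨i, e⟩
    · fin_cases c <;> simp [poly, xVec, segre, rVec, s1]
    · simp [poly, xVec, segre, rVec]
  let P : Polynomial ℂ := MvPolynomial.aeval poly G
  have hP : ∀ x : ℂ, Polynomial.eval x P = MvPolynomial.eval (xVec (s1 x) 0 1) G := by
    intro x
    rw [← Polynomial.coe_aeval_eq_eval, ← MvPolynomial.coe_aeval_eq_eval]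
    change ((Polynomial.aeval x).comp (MvPolynomial.aeval poly)) G = _
    rw [MvPolynomial.comp_aeval]
    have := hpoly x
    rw [← this]
    rfl
  have hP0 : P ≠ 0 := by
    intro h0
    obtain ⟨s, hs⟩ := hp
    apply hGp
    have h1 := dense_vanish ΓC G (MvPolynomial.X 0) (MvPolynomial.X_ne_zero _) (by
      intro u hu
      rw [MvPolynomial.eval_X] at hu
      rw [ΓC_eval]
      have h3 : xVec u 0 1 = u 0 • xVec (s1 (u 1 / u 0)) 0 1 := by
        rw [xVec_smul, smul_zero, mul_one, xVec_zero (s1 _) (u 0), ← chart_C u hu]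
      rw [h3, hom_eval hG, ← hP, h0, Polynomial.eval_zero, mul_zero])
    have h4 := h1 s
    rwa [ΓC_eval, ← hs] at h4
  have hinf : xVec (fun c => if c = 0 then 0 else 1) 0 1 ≠ 0 := by
    intro h
    have := congrFun h (1, none)
    simp [xVec, segre, rVec] at this
  refine Set.Finite.subset ((P.roots.toFinset.image (fun x =>
    Projectivization.mk ℂ _ (chart_ne x 0)) ∪
      {Projectivization.mk ℂ _ hinf}).finite_toSet) ?_
  rintro q ⟨⟨s, hs⟩, hqX⟩
  rw [Finset.coe_union, Finset.coe_image, Finset.coe_singleton]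
  have hne : xVec s 0 1 ≠ 0 := hs ▸ q.rep_nonzero
  by_cases h0 : s 0 = 0
  · right
    rw [Set.mem_singleton_iff, ← Projectivization.mk_rep q]
    refine mk_eq_of_smul _ _ (s 1) ?_
    rw [hs]
    funext ⟨c, j⟩
    rcases j with _ | ⟨i, e⟩
    · fin_cases c
      · simp [xVec, segre, rVec, h0]
      · simp [xVec, segre, rVec]
    · simp [xVec, segre, rVec]
  · left
    have h3 : xVec s 0 1 = s 0 • xVec (s1 (s 1 / s 0)) 0 1 := by
      rw [xVec_smul, smul_zero, mul_one, xVec_zero (s1 _) (s 0), ← chart_C s h0]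
    refine ⟨s 1 / s 0, ?_, ?_⟩
    · rw [Finset.mem_coe, Multiset.mem_toFinset, Polynomial.mem_roots hP0, Polynomial.IsRoot.def,
        hP]
      have h4 := hGX q hqX
      rw [hs, h3] at h4
      exact (eval_smul_iff hG h0 _).mp h4
    · rw [← Projectivization.mk_rep q]
      refine (mk_eq_of_smul _ _ (s 0) ?_).symm
      rw [hs, h3]

/-- finite sets are not curves -/
theorem not_curve_of_finite {σ : Type} {D : Set (PS σ)} (hfin : D.Finite) : ¬ IsCurve D := by
  intro hD
  have : Fintype D := hfin.fintype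
  have hb : ∀ t, hilb D t ≤ Fintype.card D := by
    intro t
    let f : MvPolynomial.homogeneousSubmodule σ ℂ t →ₗ[ℂ] (D → ℂ) :=
      { toFun := fun F p => MvPolynomial.eval p.1.rep F.1
        map_add' := by intro a b; funext p; rw [Submodule.coe_add, map_add]; rfl
        map_smul' := by
          intro c a; funext p
          rw [Submodule.coe_smul, MvPolynomial.smul_eval]; rfl }
    have h1 := quot_le_of_ker (vanForms D t) f (fun F hF p hp => congrFun hF ⟨p, hp⟩)
    rwa [Module.finrank_fintype_fun_eq_card] at h1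
  obtain ⟨c, hc⟩ := (hD.2.2).bound
  have h2 : ∀ᶠ t : ℕ in atTop, (t : ℝ) ≤ |c| * Fintype.card D := by
    filter_upwards [hc] with t ht
    rw [Real.norm_of_nonneg (by positivity), Real.norm_of_nonneg (Nat.cast_nonneg _),
      pow_one] at ht
    have h3 : (hilb D t : ℝ) ≤ Fintype.card D := by exact_mod_cast hb t
    calc (t : ℝ) ≤ c * hilb D t := ht
      _ ≤ |c| * hilb D t := mul_le_mul_of_nonneg_right (le_abs_self c) (Nat.cast_nonneg _)
      _ ≤ |c| * Fintype.card D := mul_le_mul_of_nonneg_left h3 (abs_nonneg c)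
  have h4 := tendsto_natCast_atTop_atTop (R := ℝ)
  have h5 := h4.eventually (eventually_gt_atTop (|c| * (Fintype.card D : ℝ)))
  obtain ⟨t, ht, ht'⟩ := (h2.and h5).exists
  exact absurd ht (not_le.mpr ht')

theorem curve_not_sub {X D : Set (PS SY)} (hX : IsZClosed X) (hC : ¬ Cset ⊆ X) (hD : IsCurve D)
    (hDX : D ⊆ X) : ¬ D ⊆ Cset := fun h =>
  not_curve_of_finite ((finite_inter hX hC).subset fun _ hp => ⟨h hp, hDX hp⟩) hD

/-- the difference of the two degrees as a functional -/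
noncomputable def Mfun (c : ClosedEmb Yset → ℝ) : ℝ := c φr - c φs

theorem eff_nonneg {X : Set (PS SY)} (hX : IsZClosed X) (hXY : X ⊆ Yset) (hC : ¬ Cset ⊆ X) :
    ∀ c ∈ Eff1 X, 0 ≤ Mfun (push hX hXY c) := by
  have hcont : Continuous fun c : ClosedEmb X → ℝ => Mfun (push hX hXY c) := by
    have h1 : (fun c : ClosedEmb X → ℝ => Mfun (push hX hXY c)) =
        fun c => c (φr.restrict hX hXY) - c (φs.restrict hX hXY) := rfl
    rw [h1]
    exact (continuous_apply _).sub (continuous_apply _)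
  have hclosed : IsClosed {c : ClosedEmb X → ℝ | 0 ≤ Mfun (push hX hXY c)} :=
    isClosed_le continuous_const hcont
  intro c hc
  refine closure_minimal ?_ hclosed hc.2
  intro c hc
  change 0 ≤ Mfun (push hX hXY c)
  induction hc using Submodule.span_induction with
  | mem x hx =>
    obtain ⟨D, hD, hDX, rfl⟩ := hx
    rw [push_cls hX hXY hDX, Mfun]
    exact sub_nonneg.mpr (deg_ineq hD (hDX.trans hXY) (curve_not_sub hX hC hD hDX))
  | zero =>
    simp [Mfun, push]
  | add x y _ _ hx hy =>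
    have : Mfun (push hX hXY (x + y)) = Mfun (push hX hXY x) + Mfun (push hX hXY y) := by
      simp only [Mfun, push, Pi.add_apply]
      ring
    rw [this]
    exact add_nonneg hx hy
  | smul a x _ hx =>
    have h2 : Mfun (push hX hXY (a • x)) = (a : ℝ) * Mfun (push hX hXY x) := by
      simp only [Mfun, push, Pi.smul_apply, NNReal.smul_def, smul_eq_mul]
      ring
    rw [h2]
    exact mul_nonneg a.2 hx

/-- for a closed subset `X` of `Y` not containing `C`, the cone `i_* Eff_1(X)` is not `Eff_1(Y)` -/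
theorem eff_ne {X : Set (PS SY)} (hX : IsZClosed X) (hXY : X ⊆ Yset) (hC : ¬ Cset ⊆ X) :
    push hX hXY '' Eff1 X ≠ Eff1 Yset := by
  intro h
  have h0 : cls Yset Cset ∈ curveClasses Yset := ⟨Cset, C_curve, C_subset_Y, rfl⟩
  have h1 : cls Yset Cset ∈ Eff1 Yset :=
    ⟨Submodule.subset_span h0, subset_closure (Submodule.subset_span h0)⟩
  rw [← h] at h1
  obtain ⟨c, hc, hce⟩ := h1
  have h2 := eff_nonneg hX hXY hC c hc
  rw [hce] at h2
  have h3 : Mfun (cls Yset Cset) = curveDeg (φr.image Cset) - curveDeg (φs.image Cset) := rfl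
  rw [h3] at h2
  have h4 := Cr_deg
  have h5 := Cs_deg
  linarith

/-- a point of `C` -/
noncomputable def p₀ : PS SY := Projectivization.mk ℂ _ (chart_ne 0 0)

theorem p₀_mem : p₀ ∈ Cset := mk_mem_C _ _

theorem p₀_memY : p₀ ∈ Yset := C_subset_Y p₀_mem

theorem p₀_rep : p₀.rep (0, none) ≠ 0 := by
  obtain ⟨c, hc, h⟩ := rep_mk _ (chart_ne 0 0)
  have h1 : p₀.rep = c • xVec (s1 0) 0 1 := h
  rw [h1]
  simpa [xVec, segre, rVec] using hc

/-- the chosen vector over the point of `C` -/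
noncomputable def v₀ : Cone Yset := ⟨p₀.rep, rep_mem_Cone p₀_memY⟩

theorem exists_section (d : ℕ) : ∃ s : Cone Yset → ℂ, IsSection Yset d s ∧ s v₀ ≠ 0 := by
  refine ⟨fun w => w.1 (0, none) ^ d, ?_, pow_ne_zero d p₀_rep⟩
  intro v
  refine ⟨0, MvPolynomial.X (0, none) ^ d, 1, ?_, MvPolynomial.isHomogeneous_one _ _, ?_, ?_⟩
  · rw [zero_add]
    exact MvPolynomial.isHomogeneous_X_pow _ _
  · rw [map_one]
    exact one_ne_zero
  · intro w _
    rw [map_one, mul_one, map_pow, MvPolynomial.eval_X]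

theorem IsSection.smul {σ : Type} {Y : Set (PS σ)} {d : ℕ} (c : ℂ) {a : Cone Y → ℂ}
    (ha : IsSection Y d a) : IsSection Y d (c • a) := by
  intro v
  obtain ⟨k, F, G, hF, hG, hv, h⟩ := ha v
  refine ⟨k, MvPolynomial.C c * F, G, hF.C_mul c, hG, hv, fun w hw => ?_⟩
  rw [Pi.smul_apply, smul_eq_mul, mul_assoc, h w hw, map_mul, MvPolynomial.eval_C]

theorem not_C_sub {s : Cone Yset → ℂ} (hs : s v₀ ≠ 0) : ¬ Cset ⊆ zeroLocus s := by
  intro h
  obtain ⟨_, h1⟩ := h p₀_mem
  exact hs h1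

theorem very_general (d : ℕ) :
    VeryGeneral Y_variety.1 d fun _ hX hXY => ¬ InducesIso hX hXY := by
  refine ⟨fun _ => {s | IsSection Yset d s ∧ s v₀ = 0}, fun _ => ⟨?_, ?_, ?_⟩, ?_⟩
  · refine ⟨{MvPolynomial.X v₀}, ?_⟩
    ext s
    simp
  · obtain ⟨s, hs, hs0⟩ := exists_section d
    exact ⟨s, hs, fun h => hs0 h.2⟩
  · rintro c s ⟨hs, hs0⟩
    refine ⟨hs.smul c, ?_⟩
    rw [Pi.smul_apply, hs0, smul_zero]
  · intro s hs _ hsB
    have hs' : s v₀ ≠ 0 := fun h => hsB 0 ⟨hs, h⟩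
    rintro ⟨_, h2⟩
    exact eff_ne _ _ (not_C_sub hs') h2

theorem main_thm : ∃ (σ : Type) (_ : Fintype σ) (Y : Set (PS σ)) (hY : IsVariety Y),
    HasDim Y 4 ∧ IsSmoothDim Y 4 ∧
    (∀ d : ℕ, 1 ≤ d → VeryGeneral hY.1 d fun _ hX hXY => ¬ InducesIso hX hXY) ∧
    ∃ C : Set (PS σ), IsCurve C ∧ C ⊆ Y ∧
      ∀ (X : Set (PS σ)) (hX : IsZClosed X) (hXY : X ⊆ Y), ¬ C ⊆ X →
        push hX hXY '' Eff1 X ≠ Eff1 Y :=
  ⟨SY, inferInstance, Yset, Y_variety, Y_dim, Y_smooth, fun d _ => very_general d, Cset, C_curve,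
    C_subset_Y, fun _ hX hXY hC => eff_ne hX hXY hC⟩

end Pool.Agent.H286R4
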